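import Pool.Agent.Lib.Flag_H15.Defs

/-! # The action on the polynomial ring and on its fraction field -/

set_option autoImplicit false

namespace Pool.Agent.H15Flag

section Act

variable {k : Type} [Field k] {F : Type} [Field F] [Algebra F k] {n : ℕ} {L : Type}

lemma rowAct_X (u : Matrix (Fin n) (Fin n) F) (i : Fin n) (l : L) :
    rowAct k L u (MvPolynomial.X (i, l)) =
      ∑ j, MvPolynomial.C (algebraMap F k (u i j)) * MvPolynomial.X (j, l) := by
  simp [rowAct]

lemma rowAct_comp (u v : Matrix (Fin n) (Fin n) F) :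
    (rowAct k L u).comp (rowAct k L v) = rowAct k L (v * u) := by
  apply MvPolynomial.algHom_ext
  rintro ⟨i, l⟩
  rw [AlgHom.comp_apply, rowAct_X, rowAct_X, map_sum]
  have h1 : ∀ j, rowAct k L u (MvPolynomial.C (algebraMap F k (v i j)) * MvPolynomial.X (j, l)) =
      ∑ r, MvPolynomial.C (algebraMap F k (v i j * u j r)) * MvPolynomial.X (r, l) := by
    intro j
    have h2 : rowAct k L u (MvPolynomial.C (algebraMap F k (v i j))) =
      MvPolynomial.C (algebraMap F k (v i j)) := (rowAct k L u).commutes _
    rw [map_mul, rowAct_X, h2, Finset.mul_sum]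
    refine Finset.sum_congr rfl fun r _ => ?_
    rw [map_mul, MvPolynomial.C_mul, mul_assoc]
  simp_rw [h1]
  rw [Finset.sum_comm]
  refine Finset.sum_congr rfl fun r _ => ?_
  rw [← Finset.sum_mul, Matrix.mul_apply, map_sum, map_sum]

lemma rowAct_comp_apply (u v : Matrix (Fin n) (Fin n) F) (g : MvPolynomial (Fin n × L) k) :
    rowAct k L u (rowAct k L v g) = rowAct k L (v * u) g := by
  rw [← rowAct_comp, AlgHom.comp_apply]

lemma rowAct_one : rowAct k L (1 : Matrix (Fin n) (Fin n) F) = AlgHom.id k _ := by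
  apply MvPolynomial.algHom_ext
  rintro ⟨i, l⟩
  rw [rowAct_X, AlgHom.id_apply, Finset.sum_eq_single i]
  · simp
  · intro j _ hj
    rw [Matrix.one_apply_ne hj.symm]
    simp
  · intro h; exact absurd (Finset.mem_univ i) h

lemma rowAct_injective (u : GL (Fin n) F) :
    Function.Injective (rowAct k L (u : Matrix (Fin n) (Fin n) F)) := by
  apply Function.LeftInverse.injective
    (g := rowAct k L ((u⁻¹ : GL (Fin n) F) : Matrix (Fin n) (Fin n) F))
  intro g
  rw [rowAct_comp_apply, Units.mul_inv, rowAct_one, AlgHom.id_apply]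

lemma finite_subgroup [Finite F] (H : Subgroup (GL (Fin n) F)) : Finite H := by
  have h1 : Finite (Fin n → Fin n → F) := inferInstance
  have h2 : Finite (Matrix (Fin n) (Fin n) F) := h1
  have h3 : Finite (GL (Fin n) F) := inferInstance
  exact inferInstance

variable [Finite F]

omit [Finite F] in
/-- the orbit polynomial -/
lemma isIntegral_of_orbit_aux {B : Type} [CommRing B] [Algebra k B] (A : Subalgebra k B)
    {G : Type} [Fintype G] [Group G] (φ : G → (B →ₐ[k] B))
    (hφ : ∀ u v g, φ u (φ v g) = φ (v * u) g) (h1 : ∀ g, φ 1 g = g)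
    (hA : ∀ g, (∀ u, φ u g = g) → g ∈ A) (g : B) : IsIntegral A g := by
  obtain ⟨P, hP⟩ : ∃ P : Polynomial B, P = ∏ u : G, (Polynomial.X - Polynomial.C (φ u g)) :=
    ⟨_, rfl⟩
  have hinv : ∀ v, P.map (φ v).toRingHom = P := by
    intro v
    rw [hP, Polynomial.map_prod]
    refine Fintype.prod_equiv (Equiv.mulRight v) _ _ ?_
    intro u
    rw [Polynomial.map_sub, Polynomial.map_X, Polynomial.map_C]
    change Polynomial.X - Polynomial.C (φ v (φ u g)) = _
    rw [hφ]
    rfl
  have hlift : P ∈ Polynomial.lifts (algebraMap A B) := by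
    rw [Polynomial.lifts_iff_coeff_lifts]
    intro m
    have hm : P.coeff m ∈ A := by
      apply hA
      intro v
      have h5 := congrArg (fun Q => Q.coeff m) (hinv v)
      rw [Polynomial.coeff_map] at h5
      exact h5
    exact ⟨⟨P.coeff m, hm⟩, rfl⟩
  have hmonic : P.Monic := by
    rw [hP]
    exact Polynomial.monic_prod_of_monic _ _ fun u _ => Polynomial.monic_X_sub_C _
  obtain ⟨Q, hQ, -, hQm⟩ := Polynomial.lifts_and_natDegree_eq_and_monic hlift hmonic
  refine ⟨Q, hQm, ?_⟩
  rw [← Polynomial.eval_map, hQ, hP, Polynomial.eval_prod]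
  refine Finset.prod_eq_zero (Finset.mem_univ (1 : G)) ?_
  rw [Polynomial.eval_sub, Polynomial.eval_X, Polynomial.eval_C, h1, sub_self]

lemma isIntegral_of_orbit (H : Subgroup (GL (Fin n) F)) (g : MvPolynomial (Fin n × L) k) :
    IsIntegral (vecInv k L H) g := by
  have : Finite H := finite_subgroup H
  have : Fintype H := Fintype.ofFinite H
  refine isIntegral_of_orbit_aux (vecInv k L H)
    (fun u : H => rowAct k L (u.1 : Matrix (Fin n) (Fin n) F)) ?_ ?_ ?_ g
  · intro u v g
    rw [rowAct_comp_apply]
    rfl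
  · intro g
    have : (((1 : H) : GL (Fin n) F) : Matrix (Fin n) (Fin n) F) = 1 := rfl
    rw [this, rowAct_one, AlgHom.id_apply]
  · intro g hg u hu
    exact hg ⟨u, hu⟩

instance (H : Subgroup (GL (Fin n) F)) :
    Algebra.IsIntegral (vecInv k L H) (MvPolynomial (Fin n × L) k) :=
  ⟨fun g => isIntegral_of_orbit H g⟩

lemma vecInv_finiteType [Finite L] (H : Subgroup (GL (Fin n) F)) :
    Algebra.FiniteType k (vecInv k L H) := by
  have h1 : Algebra.FiniteType k (MvPolynomial (Fin n × L) k) := inferInstance
  have h2 : Algebra.FiniteType (vecInv k L H) (MvPolynomial (Fin n × L) k) :=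
    Algebra.FiniteType.of_restrictScalars_finiteType k (vecInv k L H) _
  have h3 : Module.Finite (vecInv k L H) (MvPolynomial (Fin n × L) k) :=
    Algebra.IsIntegral.finite
  refine ⟨fg_of_fg_of_fg k (vecInv k L H) (MvPolynomial (Fin n × L) k) h1.1 h3.1 ?_⟩
  exact Subtype.val_injective

end Act

section Frac

variable {k : Type} [Field k] {F : Type} [Field F] [Algebra F k] {n : ℕ} {L : Type}

/-- The composition with the inclusion in the fraction field. -/
noncomputable def sigAux (u : GL (Fin n) F) :
    MvPolynomial (Fin n × L) k →ₐ[k] FractionRing (MvPolynomial (Fin n × L) k) :=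
  (IsScalarTower.toAlgHom k (MvPolynomial (Fin n × L) k)
      (FractionRing (MvPolynomial (Fin n × L) k))).comp
        (rowAct k L (u : Matrix (Fin n) (Fin n) F))

lemma sigAux_apply (u : GL (Fin n) F) (g : MvPolynomial (Fin n × L) k) :
    sigAux u g = algebraMap _ _ (rowAct k L (u : Matrix (Fin n) (Fin n) F) g) := rfl

lemma sigAux_injective (u : GL (Fin n) F) : Function.Injective (sigAux (k := k) (L := L) u) := by
  intro a b hab
  rw [sigAux_apply, sigAux_apply] at hab
  exact rowAct_injective u (IsFractionRing.injective (MvPolynomial (Fin n × L) k)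
      (FractionRing (MvPolynomial (Fin n × L) k)) hab)

/-- The action on the fraction field. -/
noncomputable def sig (u : GL (Fin n) F) :
    FractionRing (MvPolynomial (Fin n × L) k) →ₐ[k] FractionRing (MvPolynomial (Fin n × L) k) :=
  IsFractionRing.liftAlgHom (A := MvPolynomial (Fin n × L) k) (sigAux_injective u)

lemma sig_algebraMap (u : GL (Fin n) F) (g : MvPolynomial (Fin n × L) k) :
    sig u (algebraMap _ (FractionRing (MvPolynomial (Fin n × L) k)) g) =
      algebraMap _ _ (rowAct k L (u : Matrix (Fin n) (Fin n) F) g) := by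
  unfold sig
  rw [IsFractionRing.liftAlgHom_apply, IsFractionRing.lift_algebraMap]
  exact sigAux_apply u g

/-- The invariant fractions are fractions of invariants. -/
lemma exists_frac [Finite F] (H : Subgroup (GL (Fin n) F))
    (c : FractionRing (MvPolynomial (Fin n × L) k)) (hc : ∀ u ∈ H, sig u c = c) :
    ∃ a b : vecInv k L H, b ≠ 0 ∧
      c * algebraMap (MvPolynomial (Fin n × L) k) _ (b : MvPolynomial (Fin n × L) k) =
        algebraMap (MvPolynomial (Fin n × L) k) _ (a : MvPolynomial (Fin n × L) k) := by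
  classical
  have : Finite H := finite_subgroup H
  have : Fintype H := Fintype.ofFinite H
  obtain ⟨f, g, hg, rfl⟩ := IsFractionRing.div_surjective (A := MvPolynomial (Fin n × L) k) c
  have hg0 : g ≠ 0 := nonZeroDivisors.ne_zero hg
  set N : MvPolynomial (Fin n × L) k :=
    ∏ u : H, rowAct k L (u.1 : Matrix (Fin n) (Fin n) F) g with hN
  have hNinv : ∀ v ∈ H, rowAct k L (v : Matrix (Fin n) (Fin n) F) N = N := by
    intro v hv
    rw [hN, map_prod]
    refine Fintype.prod_equiv (Equiv.mulRight (⟨v, hv⟩ : H)) _ _ ?_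
    intro u
    rw [rowAct_comp_apply]
    rfl
  have hN0 : N ≠ 0 := by
    rw [hN, Finset.prod_ne_zero_iff]
    intro u _ h0
    exact hg0 (rowAct_injective u.1 (by rw [h0, map_zero]))
  set N' : MvPolynomial (Fin n × L) k :=
    ∏ u ∈ Finset.univ.erase (1 : H), rowAct k L (u.1 : Matrix (Fin n) (Fin n) F) g with hN'
  have hfac : g * N' = N := by
    rw [hN, ← Finset.mul_prod_erase Finset.univ _ (Finset.mem_univ (1 : H))]
    have h1 : (((1 : H) : GL (Fin n) F) : Matrix (Fin n) (Fin n) F) = 1 := rfl
    rw [h1, rowAct_one, AlgHom.id_apply]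
  have hinj : Function.Injective (algebraMap (MvPolynomial (Fin n × L) k)
    (FractionRing (MvPolynomial (Fin n × L) k))) := IsFractionRing.injective _ _
  have hval : algebraMap _ (FractionRing (MvPolynomial (Fin n × L) k)) f / algebraMap _ _ g *
      algebraMap _ _ N = algebraMap _ _ (f * N') := by
    have hg1 : algebraMap (MvPolynomial (Fin n × L) k)
      (FractionRing (MvPolynomial (Fin n × L) k)) g ≠ 0 := by
      rw [Ne, ← map_zero (algebraMap (MvPolynomial (Fin n × L) k)
        (FractionRing (MvPolynomial (Fin n × L) k)))]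
      exact fun h => hg0 (hinj h)
    rw [← hfac, map_mul, map_mul]
    field_simp
  refine ⟨⟨f * N', ?_⟩, ⟨N, hNinv⟩, ?_, hval⟩
  · intro u hu
    apply hinj
    rw [← sig_algebraMap u, ← hval, map_mul, hc u hu, sig_algebraMap, hNinv u hu]
  · intro h0
    exact hN0 (congrArg Subtype.val h0)

end Frac

end Pool.Agent.H15Flag
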