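import Pool.Agent.Lib.Flag_H15.Lam

/-! # Algebraic independence of the chart coordinates -/

set_option autoImplicit false

open Pool.Agent.H15Model Polynomial

namespace Pool.Agent.H15Flag

section AlgLemma

variable {k K : Type} [Field k] [Field K] [Algebra k K]

lemma isAlgebraic_of_eq (D : Subalgebra k K) {q : ℕ} (hq : 2 ≤ q) {y c d : K}
    (hc : IsAlgebraic D c) (hd : IsAlgebraic D d) (h : y ^ q - c * y = d) : IsAlgebraic D y := by
  set S := Subalgebra.algebraicClosure D K with hS
  have h1 : IsAlgebraic S y := by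
    let P : S[X] := X ^ q - (C ⟨c, hc⟩ * X + C ⟨d, hd⟩)
    refine ⟨P, ?_, ?_⟩
    · have hdeg : (C (⟨c, hc⟩ : S) * X + C ⟨d, hd⟩ : S[X]).degree < q := by
        refine lt_of_le_of_lt degree_linear_le ?_
        exact_mod_cast hq
      have : P.Monic := monic_X_pow_sub hdeg
      exact this.ne_zero
    · simp only [P, map_sub, map_add, map_mul, map_pow, aeval_X, aeval_C]
      change y ^ q - (c * y + d) = 0
      rw [← h]; ring
  exact h1.restrictScalars D

end AlgLemma

section Gen

variable {k K : Type} [Field k] [Field K] [Algebra k K] {L : Type} [DecidableEq L]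
variable (p h : ℕ) [hp : Fact p.Prime] (M : ℕ → L → K) (s : ℕ → L) (e : ℕ → ℕ)

/-- The coordinates after `t` stages. -/
noncomputable def gfam (q : ℕ) (M : ℕ → L → K) (s : ℕ → L) (e : ℕ → ℕ) (n t : ℕ) :
    Fin n × L → K := fun z =>
  if (z.1 : ℕ) < t then (if z.2 = s z.1 then xx q M s z.1 ^ e z.1 else ph q M s z.1 z.2)
  else row q M s t z.1 z.2

omit [Algebra k K] in
lemma row_eq_ph_mul (q : ℕ) {i : ℕ} (hx : xx q M s i ≠ 0) (l : L) :
    row q M s i i l = ph q M s i l * xx q M s i := by
  unfold ph
  rw [div_mul_cancel₀ _ hx]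

lemma isAlgebraic_gfam (hh : 1 ≤ h) {n t : ℕ} (ht : t ≤ n) (hx : ∀ i < t, xx (p ^ h) M s i ≠ 0)
    (he : ∀ i < n, 1 ≤ e i)
    (hgen : ∀ F : Subalgebra k K, (∀ z ∈ F, z⁻¹ ∈ F) → (∀ i < n, ∀ l, M i l ∈ F) → F = ⊤) :
    Algebra.IsAlgebraic (Algebra.adjoin k (Set.range (gfam (p ^ h) M s e n t))) K := by
  set q := p ^ h with hqdef
  have hq2 : 2 ≤ q := by
    rw [hqdef]
    calc 2 ≤ p := hp.out.two_le
      _ = p ^ 1 := (pow_one p).symm
      _ ≤ p ^ h := Nat.pow_le_pow_right hp.out.pos hh
  set D := Algebra.adjoin k (Set.range (gfam q M s e n t)) with hD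
  have hmem : ∀ z, gfam q M s e n t z ∈ D := fun z => Algebra.subset_adjoin ⟨z, rfl⟩
  have halg : ∀ z ∈ D, IsAlgebraic D z := fun z hz => isAlgebraic_algebraMap (⟨z, hz⟩ : D)
  have hphs : ∀ i < t, ph q M s i (s i) = 1 := fun i hi => div_self (hx i hi)
  have hxxA : ∀ i < t, IsAlgebraic D (xx q M s i) := by
    intro i hi
    have h1 := halg _ (hmem (⟨i, by omega⟩, s i))
    simp only [gfam, if_pos hi, if_true] at h1
    exact h1.of_pow (he i (by omega))
  have hphA : ∀ i < t, ∀ l, IsAlgebraic D (ph q M s i l) := by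
    intro i hi l
    by_cases hl : l = s i
    · rw [hl, hphs i hi]
      exact halg 1 (one_mem D)
    · have h1 := halg _ (hmem (⟨i, by omega⟩, l))
      simpa only [gfam, if_pos hi, if_neg hl] using h1
  -- descending
  have hdesc : ∀ i, ∀ t' ≤ t, (∀ l, IsAlgebraic D (row q M s t' i l)) →
      ∀ l, IsAlgebraic D (M i l) := by
    intro i t'
    induction t' with
    | zero => intro _ h0; exact h0
    | succ t' ih =>
      intro ht' h0
      apply ih (by omega)
      have hpiv : IsAlgebraic D (row q M s t' i (s t')) := by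
        have h1 := h0 (s t')
        apply isAlgebraic_of_eq D hq2 ((hxxA t' (by omega)).pow (q - 1)) h1
        rw [row_succ]
        simp only [red, if_true]
      intro l
      by_cases hl : l = s t'
      · rw [hl]; exact hpiv
      · have h1 := h0 l
        rw [row_succ] at h1
        simp only [red, if_neg hl] at h1
        have h2 := h1.add ((hphA t' (by omega) l).mul hpiv)
        simpa using h2
  have hMA : ∀ i < n, ∀ l, IsAlgebraic D (M i l) := by
    intro i hi
    by_cases hit : i < t
    · apply hdesc i i (by omega)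
      intro l
      rw [row_eq_ph_mul M s q (hx i hit)]
      exact (hphA i hit l).mul (hxxA i hit)
    · apply hdesc i t le_rfl
      intro l
      have h1 := halg _ (hmem (⟨i, hi⟩, l))
      simpa only [gfam, if_neg hit] using h1
  have htop : (Subalgebra.algebraicClosure D K).restrictScalars k = ⊤ := by
    apply hgen
    · intro z hz
      have : IsAlgebraic D z := hz
      exact this.inv
    · exact hMA
  refine ⟨fun z => ?_⟩
  have : z ∈ (Subalgebra.algebraicClosure D K).restrictScalars k := by rw [htop]; trivial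
  exact this

end Gen

end Pool.Agent.H15Flag
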