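import Mathlib

/-! # Vector invariants of finite linear groups -/

set_option autoImplicit false

namespace Pool.Agent.H15Flag

/-- The action of an `n × n`-matrix `u` over the field `F` on the polynomial ring over `k ⊇ F` in
the entries `X (i, l)` of a generic matrix with `n` rows and columns indexed by `L`: it is the
homomorphism of `k`-algebras that multiplies the generic matrix by `u` from the left,
`X (i, l) ↦ ∑ j, u i j * X (j, l)`. -/
noncomputable def rowAct (k : Type) [Field k] {F : Type} [Field F] [Algebra F k] {n : ℕ}
    (L : Type) (u : Matrix (Fin n) (Fin n) F) :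
    MvPolynomial (Fin n × L) k →ₐ[k] MvPolynomial (Fin n × L) k :=
  MvPolynomial.aeval fun z => ∑ j : Fin n,
    MvPolynomial.C (algebraMap F k (u z.1 j)) * MvPolynomial.X (j, z.2)

/-- The ring of vector invariants of a subgroup `H` of `GL_n(F)`: the polynomials over `k` in the
entries of a generic matrix with `n` rows and columns indexed by `L` that are invariant under
left multiplication of the generic matrix by the elements of `H`. -/
noncomputable def vecInv (k : Type) [Field k] {F : Type} [Field F] [Algebra F k] {n : ℕ}
    (L : Type) (H : Subgroup (GL (Fin n) F)) : Subalgebra k (MvPolynomial (Fin n × L) k) where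
  carrier := {g | ∀ u ∈ H, rowAct k L (u : Matrix (Fin n) (Fin n) F) g = g}
  mul_mem' := fun {a b} ha hb u hu => by rw [map_mul, ha u hu, hb u hu]
  add_mem' := fun {a b} ha hb u hu => by rw [map_add, ha u hu, hb u hu]
  algebraMap_mem' := fun r u _ => by rw [AlgHom.commutes]

end Pool.Agent.H15Flag
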