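import Mathlib

/-! # Groups of triangular matrices -/

set_option autoImplicit false

namespace Pool.Agent.H15Flag

/-- The group of the lower triangular `n × n`-matrices `u` over the field `F` whose diagonal
entries satisfy `u i i ^ e i = 1`.  For `e = 1` these are the unipotent lower triangular matrices;
if `F` has `q` elements, then for `e = q - 1` these are all the invertible lower triangular
matrices. -/
def flagGroup (F : Type) [Field F] (n : ℕ) (e : Fin n → ℕ) : Subgroup (GL (Fin n) F) where
  carrier := {u | (∀ i j, i < j → (u : Matrix (Fin n) (Fin n) F) i j = 0) ∧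
    ∀ i, (u : Matrix (Fin n) (Fin n) F) i i ^ e i = 1}
  one_mem' := by
    refine ⟨fun i j hij => ?_, fun i => ?_⟩
    · exact Matrix.one_apply_ne hij.ne
    · change (1 : Matrix (Fin n) (Fin n) F) i i ^ e i = 1
      rw [Matrix.one_apply_eq, one_pow]
  mul_mem' := by
    rintro u v ⟨hu1, hu2⟩ ⟨hv1, hv2⟩
    refine ⟨fun i j hij => ?_, fun i => ?_⟩
    · rw [Units.val_mul, Matrix.mul_apply]
      refine Finset.sum_eq_zero fun r _ => ?_
      rcases lt_or_ge i r with h | h
      · rw [hu1 i r h, zero_mul]
      · rw [hv1 r j (lt_of_le_of_lt h hij), mul_zero]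
    · have h1 : ((u * v : GL (Fin n) F) : Matrix (Fin n) (Fin n) F) i i =
          (u : Matrix (Fin n) (Fin n) F) i i * (v : Matrix (Fin n) (Fin n) F) i i := by
        rw [Units.val_mul, Matrix.mul_apply]
        refine Finset.sum_eq_single i (fun r _ hr => ?_)
          (fun h => absurd (Finset.mem_univ i) h)
        rcases lt_or_gt_of_ne hr with h | h
        · rw [hv1 r i h, mul_zero]
        · rw [hu1 i r h, zero_mul]
      rw [h1, mul_pow, hu2, hv2, one_mul]
  inv_mem' := by
    rintro u ⟨hu1, hu2⟩
    have hinv : Invertible (u : Matrix (Fin n) (Fin n) F) := u.isUnit.invertible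
    have hB : Matrix.BlockTriangular (u : Matrix (Fin n) (Fin n) F)
        (OrderDual.toDual : Fin n → (Fin n)ᵒᵈ) := fun i j hij => hu1 i j hij
    have hB' := Matrix.blockTriangular_inv_of_blockTriangular hB
    have hI : ∀ i j, i < j → ((u⁻¹ : GL (Fin n) F) : Matrix (Fin n) (Fin n) F) i j = 0 := by
      intro i j hij
      rw [Matrix.coe_units_inv]
      exact hB' hij
    refine ⟨hI, fun i => ?_⟩
    have h1 : (u : Matrix (Fin n) (Fin n) F) i i *
        ((u⁻¹ : GL (Fin n) F) : Matrix (Fin n) (Fin n) F) i i = 1 := by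
      have h2 : ((u * u⁻¹ : GL (Fin n) F) : Matrix (Fin n) (Fin n) F) i i = 1 := by
        rw [mul_inv_cancel]
        exact Matrix.one_apply_eq i
      rw [← h2, Units.val_mul, Matrix.mul_apply]
      symm
      refine Finset.sum_eq_single i (fun r _ hr => ?_)
        (fun h => absurd (Finset.mem_univ i) h)
      rcases lt_or_gt_of_ne hr with h | h
      · rw [hI r i h, mul_zero]
      · rw [hu1 i r h, zero_mul]
    have h3 : ((u : Matrix (Fin n) (Fin n) F) i i *
        ((u⁻¹ : GL (Fin n) F) : Matrix (Fin n) (Fin n) F) i i) ^ e i = 1 := by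
      rw [h1, one_pow]
    rw [mul_pow, hu2, one_mul] at h3
    exact h3

lemma mem_flagGroup {F : Type} [Field F] {n : ℕ} {e : Fin n → ℕ} {u : GL (Fin n) F} :
    u ∈ flagGroup F n e ↔ (∀ i j, i < j → (u : Matrix (Fin n) (Fin n) F) i j = 0) ∧
      ∀ i, (u : Matrix (Fin n) (Fin n) F) i i ^ e i = 1 := Iff.rfl

end Pool.Agent.H15Flag
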