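import Pool.Agent.Lib.Flag_H15.Norm
import Pool.Agent.Lib.Flag_H15.FlagDefs

/-! # The Galois group of the flag charts -/

set_option autoImplicit false

namespace Pool.Agent.H15Flag

section RowFormula

variable {F K : Type} [Field F] [Fintype F] [Field K] [Algebra F K] {n : ℕ} {L : Type}
  [DecidableEq L]
variable (p h : ℕ) [hp : Fact p.Prime] [CharP K p] (hq : Fintype.card F = p ^ h)
variable (M : ℕ → L → K) (s : ℕ → L) (σ : K →+* K) (u : Fin n → Fin n → F)

include hq in
lemma row_formula (hM : ∀ (i : Fin n) l, σ (M i l) = ∑ j : Fin n, algebraMap F K (u i j) * M j l)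
    (t : ℕ) (hph : ∀ t' < t, ∀ l, σ (ph (p ^ h) M s t' l) = ph (p ^ h) M s t' l)
    (hxx : ∀ t' < t, σ (xx (p ^ h) M s t' ^ (p ^ h - 1)) = xx (p ^ h) M s t' ^ (p ^ h - 1))
    (i : Fin n) (l : L) :
    σ (row (p ^ h) M s t i l) = ∑ j : Fin n, algebraMap F K (u i j) * row (p ^ h) M s t j l := by
  induction t generalizing l with
  | zero => exact hM i l
  | succ t ih =>
    have ih' := ih (fun t' ht' => hph t' (by omega)) (fun t' ht' => hxx t' (by omega))
    have hfr : ∀ a : F, algebraMap F K a ^ (p ^ h) = algebraMap F K a := by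
      intro a
      have := frob_F (K := K) p h hq a 1
      rwa [pow_one] at this
    rw [row_succ]
    by_cases hl : l = s t
    · simp only [red, if_pos hl]
      rw [map_sub, map_pow, map_mul, hxx t (Nat.lt_succ_self t), ih', sum_pow_char_pow,
        Finset.mul_sum, ← Finset.sum_sub_distrib]
      refine Finset.sum_congr rfl fun j _ => ?_
      rw [row_succ]
      simp only [red, if_pos hl]
      rw [mul_pow, hfr]
      ring
    · simp only [red, if_neg hl]
      rw [map_sub, map_mul, hph t (Nat.lt_succ_self t), ih', ih', Finset.mul_sum,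
        ← Finset.sum_sub_distrib]
      refine Finset.sum_congr rfl fun j _ => ?_
      rw [row_succ]
      simp only [red, if_neg hl]
      ring

include hq in
/-- a triangular matrix acts in the expected way on the pivots -/
lemma tri_formula (hM : ∀ (i : Fin n) l, σ (M i l) = ∑ j : Fin n, algebraMap F K (u i j) * M j l)
    (hx : ∀ i < n, xx (p ^ h) M s i ≠ 0) (hu : ∀ i j : Fin n, i < j → u i j = 0)
    (hu0 : ∀ i, u i i ≠ 0) (t : ℕ) (ht : t ≤ n) :
    (∀ t' < t, ∀ l, σ (ph (p ^ h) M s t' l) = ph (p ^ h) M s t' l) ∧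
    (∀ t' < t, ∀ i : Fin n, (i : ℕ) = t' → σ (xx (p ^ h) M s t') =
      algebraMap F K (u i i) * xx (p ^ h) M s t') := by
  induction t with
  | zero => exact ⟨fun t' ht' => absurd ht' (by omega), fun t' ht' => absurd ht' (by omega)⟩
  | succ t ih =>
    obtain ⟨ih1, ih2⟩ := ih (by omega)
    have hxx : ∀ t' < t, σ (xx (p ^ h) M s t' ^ (p ^ h - 1)) = xx (p ^ h) M s t' ^ (p ^ h - 1) := by
      intro t' ht'
      rw [map_pow, ih2 t' ht' ⟨t', by omega⟩ rfl, mul_pow, ← map_pow, ← hq,
        FiniteField.pow_card_sub_one_eq_one _ (hu0 _), map_one, one_mul]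
    have hrow : ∀ l, σ (row (p ^ h) M s t t l) =
        algebraMap F K (u ⟨t, by omega⟩ ⟨t, by omega⟩) * row (p ^ h) M s t t l := by
      intro l
      have h1 := row_formula p h hq M s σ u hM t ih1 hxx ⟨t, by omega⟩ l
      change σ (row (p ^ h) M s t t l) = _ at h1
      rw [h1, Finset.sum_eq_single (⟨t, by omega⟩ : Fin n)]
      · intro j _ hj
        rcases lt_or_gt_of_ne hj with h2 | h2
        · have h3 := row_eq_zero p h M s (t := t) (fun i hi => hx i (by omega)) (i := j) h2
          rw [h3]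
          simp
        · rw [hu _ _ h2, map_zero, zero_mul]
      · intro h5; exact absurd (Finset.mem_univ _) h5
    have hu1 : algebraMap F K (u ⟨t, by omega⟩ ⟨t, by omega⟩) ≠ 0 := by
      rw [Ne, map_eq_zero]; exact hu0 _
    refine ⟨?_, ?_⟩
    · intro t' ht' l
      rcases Nat.lt_succ_iff_lt_or_eq.mp ht' with h4 | rfl
      · exact ih1 t' h4 l
      · unfold ph xx
        rw [map_div₀, hrow, hrow, mul_div_mul_left _ _ hu1]
    · intro t' ht' i hi
      rcases Nat.lt_succ_iff_lt_or_eq.mp ht' with h4 | rfl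
      · exact ih2 t' h4 i hi
      · have : i = ⟨t', by omega⟩ := Fin.ext hi
        rw [this]
        exact hrow (s t')

include hq in
/-- an automorphism that fixes the chart ring acts by a triangular matrix -/
lemma tri_of_fix (hM : ∀ (i : Fin n) l, σ (M i l) = ∑ j : Fin n, algebraMap F K (u i j) * M j l)
    (hx : ∀ i < n, xx (p ^ h) M s i ≠ 0)
    (hph : ∀ t' < n, ∀ l, σ (ph (p ^ h) M s t' l) = ph (p ^ h) M s t' l)
    (e : ℕ → ℕ) (he : ∀ i < n, e i ∣ p ^ h - 1)
    (hxx : ∀ t' < n, σ (xx (p ^ h) M s t' ^ e t') = xx (p ^ h) M s t' ^ e t') :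
    (∀ i j : Fin n, i < j → u i j = 0) ∧ ∀ i : Fin n, u i i ^ e i = 1 := by
  classical
  have hxx' : ∀ t' < n, σ (xx (p ^ h) M s t' ^ (p ^ h - 1)) = xx (p ^ h) M s t' ^ (p ^ h - 1) := by
    intro t' ht'
    obtain ⟨d, hd⟩ := he t' ht'
    rw [hd, pow_mul, map_pow, hxx t' ht']
  have hrow : ∀ t ≤ n, ∀ (i : Fin n) l, σ (row (p ^ h) M s t i l) =
      ∑ j : Fin n, algebraMap F K (u i j) * row (p ^ h) M s t j l := fun t ht i l =>
    row_formula p h hq M s σ u hM t (fun t' ht' => hph t' (by omega))
      (fun t' ht' => hxx' t' (by omega)) i l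
  have htri : ∀ i j : Fin n, i < j → u i j = 0 := by
    intro i
    by_contra hcon
    push Not at hcon
    obtain ⟨j0, hj0⟩ := hcon
    obtain ⟨j, hj, hmax⟩ := Finset.exists_max_image
      (Finset.univ.filter fun j : Fin n => i < j ∧ u i j ≠ 0) (fun j => (j : ℕ))
      ⟨j0, by simpa using hj0⟩
    rw [Finset.mem_filter] at hj
    have hrj := hrow j j.2.le i (s j)
    have h0 : row (p ^ h) M s j i = 0 :=
      row_eq_zero p h M s (t := j) (fun i' hi' => hx i' (by omega)) hj.2.1
    rw [h0, Pi.zero_apply, map_zero, Finset.sum_eq_single j] at hrj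
    · have h1 : algebraMap F K (u i j) ≠ 0 := by
        rw [Ne, map_eq_zero]; exact hj.2.2
      exact (mul_ne_zero h1 (hx j j.2)) hrj.symm
    · intro j' _ hj'
      rcases lt_or_gt_of_ne hj' with h2 | h2
      · rw [row_eq_zero p h M s (t := j) (fun i' hi' => hx i' (by omega)) h2, Pi.zero_apply,
          mul_zero]
      · have : u i j' = 0 := by
          by_contra h3
          have := hmax j' (by
            rw [Finset.mem_filter]
            exact ⟨Finset.mem_univ _, hj.2.1.trans h2, h3⟩)
          exact absurd this (not_le.mpr h2)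
        rw [this, map_zero, zero_mul]
    · intro h5; exact absurd (Finset.mem_univ _) h5
  refine ⟨htri, fun i => ?_⟩
  have h1 : σ (xx (p ^ h) M s i) = algebraMap F K (u i i) * xx (p ^ h) M s i := by
    have h2 := hrow i i.2.le i (s i)
    rw [Finset.sum_eq_single i] at h2
    · exact h2
    · intro j _ hj
      rcases lt_or_gt_of_ne hj with h3 | h3
      · rw [row_eq_zero p h M s (t := i) (fun i' hi' => hx i' (by omega)) h3, Pi.zero_apply,
          mul_zero]
      · rw [htri _ _ h3, map_zero, zero_mul]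
    · intro h5; exact absurd (Finset.mem_univ _) h5
  have h3 := hxx i i.2
  rw [map_pow, h1, mul_pow] at h3
  have h4 : (algebraMap F K (u i i) ^ e i - 1) * xx (p ^ h) M s i ^ e i = 0 := by
    linear_combination h3
  have h5 := (mul_eq_zero.mp h4).resolve_right (pow_ne_zero _ (hx i i.2))
  have h6 : algebraMap F K (u i i ^ e i) = algebraMap F K 1 := by
    rw [map_pow, map_one]; exact sub_eq_zero.mp h5
  exact (algebraMap F K).injective h6

end RowFormula

end Pool.Agent.H15Flag
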