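import Pool.Agent.Lib.Flag_H15.Wrap
import Pool.Agent.Lib.Flag_H15.FlagGal

/-! # Resolution of the vector invariants of groups of triangular matrices -/

set_option autoImplicit false

open AlgebraicGeometry CategoryTheory Pool.Agent.H15Model

namespace Pool.Agent.H15Flag

section Congr

variable {K : Type} [Field K] {L : Type} [DecidableEq L]

lemma xx_congr (q : ℕ) (M : ℕ → L → K) {s s' : ℕ → L} {t : ℕ} (h : ∀ i ≤ t, s i = s' i) :
    xx q M s t = xx q M s' t := by
  unfold xx
  rw [row_congr q M (fun i hi => h i hi.le), h t le_rfl]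

lemma ph_congr (q : ℕ) (M : ℕ → L → K) {s s' : ℕ → L} {t : ℕ} (h : ∀ i ≤ t, s i = s' i) :
    ph q M s t = ph q M s' t := by
  funext l
  unfold ph
  rw [row_congr q M (fun i hi => h i hi.le), xx_congr q M h]

lemma dch_congr {k : Type} [Field k] [Algebra k K] (q : ℕ) (M : ℕ → L → K) {s s' : ℕ → L}
    (e : ℕ → ℕ) {n : ℕ} (h : ∀ i < n, s i = s' i) : dch k q M s e n = dch k q M s' e n := by
  unfold dch
  congr 2
  · ext z
    constructor
    · rintro ⟨i, hi, rfl⟩
      exact ⟨i, hi, by rw [xx_congr q M (fun j hj => h j (by omega))]⟩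
    · rintro ⟨i, hi, rfl⟩
      exact ⟨i, hi, by rw [xx_congr q M (fun j hj => h j (by omega))]⟩
  · ext z
    constructor
    · rintro ⟨i, hi, l, rfl⟩
      exact ⟨i, hi, l, by rw [ph_congr q M (fun j hj => h j (by omega))]⟩
    · rintro ⟨i, hi, l, rfl⟩
      exact ⟨i, hi, l, by rw [ph_congr q M (fun j hj => h j (by omega))]⟩

end Congr

section Span

variable {k K : Type} [Field k] [Field K] [Algebra k K] {L : Type} [DecidableEq L]
variable (p h : ℕ) [hp : Fact p.Prime] [CharP K p] (M : ℕ → L → K) (s : ℕ → L)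

lemma lam_span (n : ℕ) (hx : ∀ i < n, xx (p ^ h) M s i ≠ 0) (E0 : Subfield K)
    (E : Subalgebra k K) (hE : ∀ z, z ∈ E → z ∈ E0)
    (hph : ∀ i < n, ∀ l, ph (p ^ h) M s i l ∈ E)
    (hxx : ∀ i < n, xx (p ^ h) M s i ^ (p ^ h - 1) ∈ E) :
    ∀ d ≤ n, ∀ v ∈ Lam (p ^ h) M s E (n - d), (fun i : Fin n => v i) ∈
      Submodule.span E0 (Set.range fun (t : Fin n) (i : Fin n) => row (p ^ h) M s t i (s t)) := by
  intro d
  induction d with
  | zero =>
    intro _ v hv
    have : (fun i : Fin n => v i) = 0 := by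
      funext i
      exact lam_vanish p h M s E hx hv i.2
    rw [this]; exact zero_mem _
  | succ d ih =>
    intro hd v hv
    have h1 : n - (d + 1) + 1 = n - d := by omega
    have h2 : n - (d + 1) < n := by omega
    obtain ⟨c, hc⟩ := lam_step p h M s E (hx _ h2) (hph _ h2) (hxx _ h2) hv
    rw [h1] at hc
    have h3 := ih (by omega) _ hc
    have h4 : (fun i : Fin n => v i) = (fun i : Fin n => v i - (c : K) *
        row (p ^ h) M s (n - (d + 1)) i (s (n - (d + 1)))) +
        (⟨(c : K), hE _ c.2⟩ : E0) • fun i : Fin n =>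
          row (p ^ h) M s (n - (d + 1)) i (s (n - (d + 1))) := by
      funext i
      simp only [Pi.add_apply, Pi.smul_apply]
      change v i = v i - (c : K) * _ + (c : K) * _
      ring
    rw [h4]
    exact add_mem h3 (Submodule.smul_mem _ _ (Submodule.subset_span ⟨⟨_, h2⟩, rfl⟩))

omit [CharP K p] in
lemma piv_indep (n : ℕ) (hx : ∀ i < n, xx (p ^ h) M s i ≠ 0) :
    LinearIndependent K (fun (t : Fin n) (i : Fin n) => row (p ^ h) M s t i (s t)) := by
  have h1 : (Matrix.of fun (t : Fin n) (i : Fin n) => row (p ^ h) M s t i (s t)).BlockTriangular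
      id := by
    intro i j hij
    change row (p ^ h) M s i j (s i) = 0
    have hij' : (j : ℕ) < i := hij
    rw [row_eq_zero p h M s (t := i) (fun i' hi' => hx i' (by omega)) hij', Pi.zero_apply]
  have h2 : IsUnit (Matrix.of fun (t : Fin n) (i : Fin n) => row (p ^ h) M s t i (s t)) := by
    rw [Matrix.isUnit_iff_isUnit_det, Matrix.det_of_isUpperTriangular h1, isUnit_iff_ne_zero,
      Finset.prod_ne_zero_iff]
    intro i _
    exact hx i i.2
  exact Matrix.linearIndependent_rows_iff_isUnit.mpr h2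

end Span

section Main

variable {k : Type} [Field k] {F : Type} [Field F] [Fintype F] [Algebra F k]
    {n : ℕ} {L : Type} [Finite L] [DecidableEq L]
variable (p h : ℕ) [hp : Fact p.Prime] [CharP k p]

omit [DecidableEq L] [Finite L] hp [CharP k p] in
lemma algebraMap_mem_of_Mg (V : ValuationSubring (FractionRing (MvPolynomial (Fin n × L) k)))
    (hk : ∀ a : k, algebraMap k _ a ∈ V) (hM : ∀ i < n, ∀ l, Mg k L n i l ∈ V)
    (b : MvPolynomial (Fin n × L) k) :
    algebraMap (MvPolynomial (Fin n × L) k) (FractionRing (MvPolynomial (Fin n × L) k)) b ∈ V := by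
  induction b using MvPolynomial.induction_on with
  | C a =>
    have : algebraMap (MvPolynomial (Fin n × L) k)
      (FractionRing (MvPolynomial (Fin n × L) k)) (MvPolynomial.C a) = algebraMap k _ a := by
      rw [IsScalarTower.algebraMap_apply k (MvPolynomial (Fin n × L) k)]
      rfl
    rw [this]
    exact hk a
  | add x y hx hy => rw [map_add]; exact add_mem hx hy
  | mul_X x i hx =>
    rw [map_mul]
    refine mul_mem hx ?_
    have h1 := hM i.1 i.1.2 i.2
    rw [Mg, dif_pos i.1.2] at h1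
    exact h1

omit [CharP k p] in
lemma isIntegrallyClosed_dch (hh : 1 ≤ h) (s : ℕ → L) (e : ℕ → ℕ) (he : ∀ i < n, 1 ≤ e i) :
    IsIntegrallyClosed (dch k (p ^ h) (Mg k L n) s e n) := by
  rw [dch_eq_adjoin k L n p h s e hh]
  have h1 := algebraicIndependent_gfam k L n p h s e hh le_rfl he
  exact IsIntegrallyClosed.of_equiv h1.aevalEquiv.toRingEquiv

/-- An automorphism which fixes the chart ring belongs to the group. -/
lemma vecInv_le_dch (hq : Fintype.card F = p ^ h) (hh : 1 ≤ h) (l0 : L) (s : ℕ → L) (e : ℕ → ℕ)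
    (he : ∀ i < n, e i ∣ p ^ h - 1) (he1 : ∀ i < n, 1 ≤ e i) (a : MvPolynomial (Fin n × L) k)
    (ha : a ∈ vecInv k L (flagGroup F n fun i => e i)) :
    algebraMap (MvPolynomial (Fin n × L) k) (FractionRing (MvPolynomial (Fin n × L) k)) a ∈
      dch k (p ^ h) (Mg k L n) s e n := by
  have hch : CharP (FractionRing (MvPolynomial (Fin n × L) k)) p :=
    charP_of_injective_algebraMap (algebraMap k _).injective p
  have hcl := isIntegrallyClosed_dch (k := k) (n := n) p h hh s e he1
  have hx : ∀ i < n, xx (p ^ h) (Mg k L n) s i ≠ 0 := xx_ne_zero k L n p h s hh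
  obtain ⟨D, hD⟩ : ∃ D, D = dch k (p ^ h) (Mg k L n) s e n := ⟨_, rfl⟩
  rw [← hD]
  rw [← hD] at hcl
  have hphD : ∀ i < n, ∀ l, ph (p ^ h) (Mg k L n) s i l ∈ D := by
    intro i hi l; rw [hD]; exact ph_mem p h _ s e hi l
  have hxxD : ∀ i < n, xx (p ^ h) (Mg k L n) s i ^ e i ∈ D := by
    intro i hi; rw [hD]; exact xx_pow_mem p h _ s e hi dvd_rfl
  have hxxD' : ∀ i < n, xx (p ^ h) (Mg k L n) s i ^ (p ^ h - 1) ∈ D := by
    intro i hi; rw [hD]; exact xx_pow_mem p h _ s e hi (he i hi)
  obtain ⟨E0, hE0⟩ : ∃ E0 : Subfield (FractionRing (MvPolynomial (Fin n × L) k)),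
    E0 = Subfield.closure (D : Set _) := ⟨_, rfl⟩
  have hDE : ∀ z, z ∈ D → z ∈ E0 := by
    intro z hz; rw [hE0]; exact Subfield.subset_closure hz
  apply mem_of_frac_of_val D
  · rw [← hE0]
    refine mem_of_fixed (F := F) p h hq hh l0 E0 (fun a => hDE _ (D.algebraMap_mem a))
      (fun (t : Fin n) (i : Fin n) => row (p ^ h) (Mg k L n) s t i (s t))
      (piv_indep p h _ s n hx) ?_ ?_ (flagGroup F n fun i => e i) ?_ _ ?_
    · intro l
      have h1 := lam_span (k := k) p h (Mg k L n) s n hx E0 D hDE hphD hxxD' n le_rfl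
        (fun i => Mg k L n i l)
      apply h1
      have h2 : n - n = 0 := by omega
      rw [h2]
      exact lam_col (Mg k L n) s (p ^ h) D 0 l
    · intro j
      have h1 := lam_span (k := k) p h (Mg k L n) s n hx E0 D hDE hphD hxxD' (n - j) (by omega)
        (fun i => row (p ^ h) (Mg k L n) s j i (s j) ^ (p ^ h))
      apply h1
      have h2 : n - (n - j) = j := by omega
      rw [h2]
      exact lam_frob p h (Mg k L n) s D (lam_col (Mg k L n) s (p ^ h) D j (s j))
    · intro σ u hu
      rw [mem_flagGroup]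
      exact tri_of_fix p h hq (Mg k L n) s (σ : FractionRing (MvPolynomial (Fin n × L) k) →+*
        FractionRing (MvPolynomial (Fin n × L) k)) (fun i j => u.1 i j) hu hx
        (fun t' ht' l => σ.commutes ⟨_, hDE _ (hphD t' ht' l)⟩) e he
        (fun t' ht' => σ.commutes ⟨_, hDE _ (hxxD t' ht')⟩)
    · intro u hu
      rw [sig_algebraMap, ha u hu]
  · intro V hV
    have hM := M_mem_of_dch (k := k) p h (Mg k L n) s e hh n he1 hx V (by rw [← hD]; exact hV)
    exact algebraMap_mem_of_Mg V (fun a => hV _ (D.algebraMap_mem a)) hM a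

omit [Finite L] in
lemma dch_fixed (hq : Fintype.card F = p ^ h) (s : ℕ → L) (e : ℕ → ℕ)
    (hx : ∀ i < n, xx (p ^ h) (Mg k L n) s i ≠ 0) (he1 : ∀ i < n, 1 ≤ e i)
    (c : FractionRing (MvPolynomial (Fin n × L) k)) (hc : c ∈ dch k (p ^ h) (Mg k L n) s e n)
    (u : GL (Fin n) F) (hu : u ∈ flagGroup F n fun i => e i) : sig u c = c := by
  have hch : CharP (FractionRing (MvPolynomial (Fin n × L) k)) p :=
    charP_of_injective_algebraMap (algebraMap k _).injective p
  rw [mem_flagGroup] at hu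
  have hu0 : ∀ i, u.1 i i ≠ 0 := by
    intro i h0
    have := hu.2 i
    rw [h0, zero_pow (by have := he1 i i.2; omega)] at this
    exact zero_ne_one this
  have htri := tri_formula p h hq (Mg k L n) s
    ((sig (k := k) (L := L) u : FractionRing (MvPolynomial (Fin n × L) k) →+*
      FractionRing (MvPolynomial (Fin n × L) k))) (fun i j => u.1 i j)
    (fun i l => sig_Mg u i l) hx hu.1 hu0 n le_rfl
  unfold dch at hc
  induction hc using Algebra.adjoin_induction with
  | mem z hz =>
    rcases hz with ⟨i, hi, rfl⟩ | ⟨i, hi, l, rfl⟩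
    · rw [map_pow]
      have h1 : sig u (xx (p ^ h) (Mg k L n) s i) =
          algebraMap F _ (u.1 ⟨i, hi⟩ ⟨i, hi⟩) * xx (p ^ h) (Mg k L n) s i :=
        htri.2 i hi ⟨i, hi⟩ rfl
      have h2 : u.1 ⟨i, hi⟩ ⟨i, hi⟩ ^ e i = 1 := hu.2 ⟨i, hi⟩
      rw [h1, mul_pow, ← map_pow, h2, map_one, one_mul]
    · exact htri.1 i hi l
  | algebraMap r => exact (sig u).commutes r
  | add x y _ _ hx hy => rw [map_add, hx, hy]
  | mul x y _ _ hx hy => rw [map_mul, hx, hy]

end Main

/-- Resolution of the vector invariants of the groups between the unitriangular group and the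
group of all the triangular matrices over a finite field. -/
theorem resolution_flag {k : Type} [Field k] {F : Type} [Field F] [Finite F] [Algebra F k]
    (n : ℕ) (L : Type) [Finite L] [Nonempty L] (e : Fin n → ℕ) (he : ∀ i, e i ∣ Nat.card F - 1) :
    Algebra.FiniteType k (vecInv k L (flagGroup F n e)) ∧
    ∃ (Y : Scheme.{0}) (sY : Y ⟶ Spec (CommRingCat.of k))
      (f : Y ⟶ Spec (CommRingCat.of (vecInv k L (flagGroup F n e)))),
      AlgebraicGeometry.IsIntegral Y ∧ AlgebraicGeometry.Smooth sY ∧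
      f ≫ Spec.map (CommRingCat.ofHom (algebraMap k (vecInv k L (flagGroup F n e)))) = sY ∧
      AlgebraicGeometry.IsProper f ∧
      ∃ V : (Spec (CommRingCat.of (vecInv k L (flagGroup F n e)))).Opens, V ≠ ⊥ ∧
        IsIso (AlgebraicGeometry.morphismRestrict f V) := by
  classical
  have : Fintype F := Fintype.ofFinite F
  obtain ⟨h, hp, hq⟩ := FiniteField.card F (ringChar F)
  obtain ⟨p, hpF⟩ : ∃ p, p = ringChar F := ⟨_, rfl⟩
  rw [← hpF] at hp hq
  have : Fact p.Prime := ⟨hp⟩
  have hcF : CharP F p := by rw [hpF]; exact ringChar.charP F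
  have hck : CharP k p := charP_of_injective_algebraMap (algebraMap F k).injective p
  have hh : 1 ≤ (h : ℕ) := h.2
  have hch : CharP (FractionRing (MvPolynomial (Fin n × L) k)) p :=
    charP_of_injective_algebraMap (algebraMap k _).injective p
  have l0 : L := Classical.arbitrary L
  have hq2 : 2 ≤ p ^ (h : ℕ) := by
    calc 2 ≤ p := hp.two_le
      _ = p ^ 1 := (pow_one p).symm
      _ ≤ p ^ (h : ℕ) := Nat.pow_le_pow_right hp.pos hh
  obtain ⟨e', he'⟩ : ∃ e' : ℕ → ℕ, e' = fun i => if hi : i < n then e ⟨i, hi⟩ else 1 := ⟨_, rfl⟩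
  have hee : (fun i : Fin n => e' i) = e := by
    funext i
    rw [he']
    simp
  have hed : ∀ i < n, e' i ∣ p ^ (h : ℕ) - 1 := by
    intro i hi
    have := he ⟨i, hi⟩
    rw [← hee, Nat.card_eq_fintype_card, hq] at this
    exact this
  have he1 : ∀ i < n, 1 ≤ e' i := by
    intro i hi
    exact Nat.pos_of_dvd_of_pos (hed i hi) (by omega)
  obtain ⟨ext, hext⟩ : ∃ ext : (Fin n → L) → ℕ → L,
      ext = fun s i => if hi : i < n then s ⟨i, hi⟩ else l0 := ⟨_, rfl⟩
  rw [← hee]
  refine resolution_vecInv (flagGroup F n fun i => e' i) (ι := Fin n → L)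
    (fun s => dch k (p ^ (h : ℕ)) (Mg k L n) (ext s) e' n) ?_ ?_ ?_ ?_ ?_
  · intro s a ha
    exact vecInv_le_dch p h hq hh l0 (ext s) e' hed he1 a ha
  · intro s s'
    exact isAway_dch p h (Mg k L n) (ext s) e' (ext s') n hed (xx_ne_zero k L n p h _ hh)
      (xx_ne_zero k L n p h _ hh)
  · intro V hk hM
    have hM' : ∀ i l, Mg k L n i l ∈ V := by
      intro i l
      by_cases hi : i < n
      · exact hM i hi l
      · rw [Mg, dif_neg hi]; exact zero_mem V
    obtain ⟨s, hs⟩ := exists_chart_of_valuation (k := k) p h (Mg k L n) e' n V hk hM'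
      (fun s => xx_ne_zero k L n p h s hh)
    refine ⟨fun i => s i, ?_⟩
    have h1 : dch k (p ^ (h : ℕ)) (Mg k L n) (ext fun i => s i) e' n =
        dch k (p ^ (h : ℕ)) (Mg k L n) s e' n := by
      apply dch_congr
      intro i hi
      rw [hext]
      simp [hi]
    intro c hc
    apply hs
    rw [← h1]
    exact hc
  · intro s
    exact smooth_dch k L n p h (ext s) e' hh he1
  · intro s c hc u hu
    exact dch_fixed p h hq (ext s) e' (xx_ne_zero k L n p h _ hh) he1 c hc u hu

end Pool.Agent.H15Flag
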