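import Pool.Agent.Lib.Flag_H15.Moore

/-! # The Galois group of the generic matrix -/

set_option autoImplicit false

open Polynomial

namespace Pool.Agent.H15Flag

variable {F k : Type} [Field F] [Fintype F] [Field k] [Algebra F k] {n : ℕ} {L : Type} [Finite L]

omit [Fintype F] [Finite L] in
lemma ev_col (l0 : L) (α : Fin n → F) :
    ev (F := F) (fun i : Fin n => Mg k L n i l0) α =
      algebraMap (MvPolynomial (Fin n × L) k) _
        (∑ i, MvPolynomial.C (algebraMap F k (α i)) * MvPolynomial.X (i, l0)) := by
  unfold ev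
  rw [map_sum]
  refine Finset.sum_congr rfl fun i _ => ?_
  have h1 : Mg k L n i l0 = algebraMap (MvPolynomial (Fin n × L) k) _
      (MvPolynomial.X (i, l0)) := by
    rw [Mg, dif_pos i.2]
  beta_reduce
  rw [h1, map_mul]
  rfl

omit [Fintype F] [Finite L] in
lemma ev_injective (l0 : L) :
    Function.Injective (ev (F := F) (fun i : Fin n => Mg k L n i l0)) := by
  classical
  intro α β hab
  rw [ev_col, ev_col] at hab
  have h1 := IsFractionRing.injective (MvPolynomial (Fin n × L) k)
    (FractionRing (MvPolynomial (Fin n × L) k)) hab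
  funext i
  have h2 := congrArg (MvPolynomial.eval (fun z => if z = (i, l0) then (1 : k) else 0)) h1
  simp only [map_sum, map_mul, MvPolynomial.eval_C, MvPolynomial.eval_X, Prod.mk.injEq,
    and_true, mul_ite, mul_one, mul_zero, Finset.sum_ite_eq', Finset.mem_univ, if_true] at h2
  exact (algebraMap F k).injective h2

omit [Fintype F] [Finite L] in
lemma sig_Mg (u : GL (Fin n) F) (i : Fin n) (l : L) :
    sig u (Mg k L n i l) = ∑ j : Fin n, algebraMap F _ (u.1 i j) * Mg k L n j l := by
  have h1 : ∀ i : Fin n, Mg k L n i l = algebraMap (MvPolynomial (Fin n × L) k) _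
      (MvPolynomial.X (i, l)) := by
    intro i
    rw [Mg, dif_pos i.2]
  rw [h1 i, sig_algebraMap, rowAct_X, map_sum]
  refine Finset.sum_congr rfl fun j _ => ?_
  rw [h1 j, map_mul]
  rfl

section Main

variable (p h : ℕ) [hp : Fact p.Prime]

lemma span_frob {K : Type} [Field K] [CharP K p] (E0 : Subfield K) (b : Fin n → Fin n → K)
    (hfrob : ∀ j, (fun i => b j i ^ (p ^ h)) ∈ Submodule.span E0 (Set.range b))
    {x : Fin n → K} (hx : x ∈ Submodule.span E0 (Set.range b)) :
    (fun i => x i ^ (p ^ h)) ∈ Submodule.span E0 (Set.range b) := by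
  induction hx using Submodule.span_induction with
  | mem x hx => obtain ⟨j, rfl⟩ := hx; exact hfrob j
  | zero =>
    have : (fun i : Fin n => (0 : Fin n → K) i ^ (p ^ h)) = 0 := by
      funext i
      exact zero_pow (pow_pos hp.out.pos h).ne'
    rw [this]; exact zero_mem _
  | add x y _ _ hx hy =>
    have : (fun i => (x + y) i ^ (p ^ h)) = (fun i => x i ^ (p ^ h)) + fun i => y i ^ (p ^ h) := by
      funext i
      simp only [Pi.add_apply]
      rw [add_pow_char_pow]
    rw [this]; exact add_mem hx hy
  | smul c v _ hv =>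
    have : (fun i => (c • v) i ^ (p ^ h)) = (c ^ (p ^ h)) • fun i => v i ^ (p ^ h) := by
      funext i
      change ((c : K) * v i) ^ (p ^ h) = ((c ^ (p ^ h) : E0) : K) * v i ^ (p ^ h)
      rw [mul_pow]
      rfl
    rw [this]; exact Submodule.smul_mem _ _ hv

lemma span_frob_pow {K : Type} [Field K] [CharP K p] (E0 : Subfield K) (b : Fin n → Fin n → K)
    (hfrob : ∀ j, (fun i => b j i ^ (p ^ h)) ∈ Submodule.span E0 (Set.range b))
    {x : Fin n → K} (hx : x ∈ Submodule.span E0 (Set.range b)) (r : ℕ) :
    (fun i => x i ^ ((p ^ h) ^ r)) ∈ Submodule.span E0 (Set.range b) := by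
  induction r with
  | zero => simpa using hx
  | succ r ih =>
    have := span_frob p h E0 b hfrob ih
    have h1 : (fun i => x i ^ ((p ^ h) ^ (r + 1))) = fun i => (x i ^ ((p ^ h) ^ r)) ^ (p ^ h) := by
      funext i
      rw [pow_succ (p ^ h) r, pow_mul]
    rw [h1]; exact this

/-- every element of the span is a combination of the Frobenius twists of one column -/
lemma span_le_moore {K : Type} [Field K] [CharP K p] [Algebra F K] (hq : Fintype.card F = p ^ h)
    (hh : 1 ≤ h) (E0 : Subfield K) (b : Fin n → Fin n → K) (hb : LinearIndependent K b)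
    (hfrob : ∀ j, (fun i => b j i ^ (p ^ h)) ∈ Submodule.span E0 (Set.range b))
    (v : Fin n → K) (hv : Function.Injective (ev (F := F) v))
    (hvS : v ∈ Submodule.span E0 (Set.range b)) (x : Fin n → K)
    (hx : x ∈ Submodule.span E0 (Set.range b)) :
    ∃ c : Fin n → E0, ∀ i, x i = ∑ r : Fin n, (c r : K) * v i ^ ((p ^ h) ^ (r : ℕ)) := by
  have hb0 : LinearIndependent E0 b := hb.restrict_scalars
    (by intro x y hxy; simpa [Subfield.smul_def] using hxy)
  have hm := (moore_indep p h hq hh v hv)
  have hm0 : LinearIndependent E0 (fun (r : Fin n) (i : Fin n) => v i ^ ((p ^ h) ^ (r : ℕ))) :=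
    hm.restrict_scalars (by intro x y hxy; simpa [Subfield.smul_def] using hxy)
  have hle : Submodule.span E0 (Set.range
      (fun (r : Fin n) (i : Fin n) => v i ^ ((p ^ h) ^ (r : ℕ)))) ≤
      Submodule.span E0 (Set.range b) := by
    rw [Submodule.span_le]
    rintro _ ⟨r, rfl⟩
    exact span_frob_pow p h E0 b hfrob hvS r
  have heq : Submodule.span E0 (Set.range
      (fun (r : Fin n) (i : Fin n) => v i ^ ((p ^ h) ^ (r : ℕ)))) =
      Submodule.span E0 (Set.range b) := by
    have : FiniteDimensional E0 (Submodule.span E0 (Set.range b)) :=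
      FiniteDimensional.span_of_finite E0 (Set.finite_range b)
    apply Submodule.eq_of_le_of_finrank_eq hle
    rw [finrank_span_eq_card hm0, finrank_span_eq_card hb0]
  rw [← heq, Submodule.mem_span_range_iff_exists_fun] at hx
  obtain ⟨c, hc⟩ := hx
  refine ⟨c, fun i => ?_⟩
  rw [← hc]
  simp only [Finset.sum_apply, Pi.smul_apply]
  rfl

section Fixed

variable [CharP k p]

omit [Fintype F] [Finite L] in
/-- two homomorphisms that agree on the constants and on the entries are equal -/
lemma eq_of_Mg (E0 : Subfield (FractionRing (MvPolynomial (Fin n × L) k)))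
    (hk : ∀ a : k, algebraMap k (FractionRing (MvPolynomial (Fin n × L) k)) a ∈ E0)
    (σ : FractionRing (MvPolynomial (Fin n × L) k) ≃ₐ[E0]
      FractionRing (MvPolynomial (Fin n × L) k)) (g : GL (Fin n) F)
    (h1 : ∀ (i : Fin n) (l : L), σ (Mg k L n i l) = sig g (Mg k L n i l))
    (w : FractionRing (MvPolynomial (Fin n × L) k)) : σ w = sig g w := by
  let S : Subalgebra k (FractionRing (MvPolynomial (Fin n × L) k)) :=
    { carrier := {z | σ z = sig g z}
      mul_mem' := fun {a b} ha hb => by
        change σ (a * b) = sig g (a * b)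
        rw [map_mul, map_mul, show σ a = sig g a from ha, show σ b = sig g b from hb]
      add_mem' := fun {a b} ha hb => by
        change σ (a + b) = sig g (a + b)
        rw [map_add, map_add, show σ a = sig g a from ha, show σ b = sig g b from hb]
      algebraMap_mem' := fun r => by
        change σ (algebraMap k _ r) = sig g (algebraMap k _ r)
        rw [AlgHom.commutes]
        exact σ.commutes ⟨_, hk r⟩ }
  have hS : S = ⊤ := by
    apply Mg_gen
    · intro z hz
      change σ z⁻¹ = sig g z⁻¹
      rw [map_inv₀, map_inv₀, show σ z = sig g z from hz]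
    · intro i hi l
      exact h1 ⟨i, hi⟩ l
  have : w ∈ S := by rw [hS]; trivial
  exact this

end Fixed

section Abstract

variable {K : Type} [Field K] [CharP K p] [Algebra k K] [Algebra F K] [IsScalarTower F k K]

omit [Finite L] in
/-- The Galois lemma, abstract form: the elements fixed by all the automorphisms over an
intermediate field over which the lattice of the columns is defined. -/
lemma mem_of_fixed_aux (hq : Fintype.card F = p ^ h) (hh : 1 ≤ h) (col : L → Fin n → K)
    (hgen : ∀ S : Subalgebra k K, (∀ z ∈ S, z⁻¹ ∈ S) → (∀ l i, col l i ∈ S) → S = ⊤)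
    (l0 : L) (hv : Function.Injective (ev (F := F) (col l0)))
    (E0 : Subfield K) (hk : ∀ a : k, algebraMap k K a ∈ E0)
    (b : Fin n → Fin n → K) (hb : LinearIndependent K b)
    (hcol : ∀ l, col l ∈ Submodule.span E0 (Set.range b))
    (hfrob : ∀ j, (fun i => b j i ^ (p ^ h)) ∈ Submodule.span E0 (Set.range b))
    (w : K)
    (hw : ∀ (σ : K ≃ₐ[E0] K) (u : GL (Fin n) F),
      (∀ (i : Fin n) (l : L), σ (col l i) = ∑ j : Fin n, algebraMap F _ (u.1 i j) * col l j) →
      σ w = w) : w ∈ E0 := by
  classical
  have hq2 : 2 ≤ p ^ h := by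
    calc 2 ≤ p := hp.out.two_le
      _ = p ^ 1 := (pow_one p).symm
      _ ≤ p ^ h := Nat.pow_le_pow_right hp.out.pos hh
  obtain ⟨v, hvdef⟩ : ∃ v : Fin n → K, v = col l0 := ⟨_, rfl⟩
  rw [← hvdef] at hv
  have hvS : v ∈ Submodule.span E0 (Set.range b) := by rw [hvdef]; exact hcol l0
  have hmoore := span_le_moore (F := F) p h hq hh E0 b hb hfrob v hv hvS
  obtain ⟨β, hβ⟩ := hmoore _ (span_frob_pow p h E0 b hfrob hvS n)
  choose c hc using fun l => hmoore _ (hcol l)
  have hprod := addPoly_prod p h hq E0 hq2 β v hv hβ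
  have hmonic := addPoly_monic p h E0 hq2 β
  have hP0 : addPoly E0 (p ^ h) β ≠ 0 := hmonic.ne_zero
  have hevsingle : ∀ i, ev v (Pi.single i (1 : F)) = v i := by
    intro i
    unfold ev
    rw [Finset.sum_eq_single i]
    · simp
    · intro j _ hj
      simp [Pi.single_eq_of_ne hj]
    · intro h5; exact absurd (Finset.mem_univ i) h5
  -- the splitting field
  have hsplit : Polynomial.IsSplittingField E0 K (addPoly E0 (p ^ h) β) := by
    refine ⟨?_, ?_⟩
    · rw [hprod]
      exact Splits.prod fun _ _ => Splits.X_sub_C _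
    · have halg : ∀ x ∈ ((addPoly E0 (p ^ h) β).rootSet K), IsAlgebraic E0 x :=
        fun x hx => isAlgebraic_of_mem_rootSet hx
      rw [← IntermediateField.adjoin_toSubalgebra_of_isAlgebraic halg]
      set I := IntermediateField.adjoin E0 ((addPoly E0 (p ^ h) β).rootSet K) with hI
      have hvI : ∀ i, v i ∈ I := by
        intro i
        apply IntermediateField.subset_adjoin
        rw [mem_rootSet_of_ne hP0, aeval_def, ← eval_map, hprod, eval_prod]
        refine Finset.prod_eq_zero (Finset.mem_univ (Pi.single i (1 : F))) ?_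
        rw [hevsingle, eval_sub, eval_X, eval_C, sub_self]
      let S : Subalgebra k K :=
        { carrier := I
          mul_mem' := fun {a b} ha hb => mul_mem ha hb
          add_mem' := fun {a b} ha hb => add_mem ha hb
          algebraMap_mem' := fun r => I.algebraMap_mem ⟨_, hk r⟩ }
      have hS : S = ⊤ := by
        apply hgen
        · intro z hz
          exact I.inv_mem hz
        · intro l i
          have h6 := hc l i
          change col l i ∈ I
          rw [h6]
          refine sum_mem fun r _ => mul_mem (I.algebraMap_mem (c l r)) (pow_mem (hvI _) _)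
      rw [eq_top_iff]
      intro z _
      have : z ∈ S := by rw [hS]; trivial
      exact this
  have hsep : (addPoly E0 (p ^ h) β).Separable := by
    rw [← Polynomial.separable_map (algebraMap E0 K), hprod, separable_prod_X_sub_C_iff]
    exact hv
  have hgal : IsGalois E0 K := IsGalois.of_separable_splitting_field hsep
  have hfd : FiniteDimensional E0 K :=
    Polynomial.IsSplittingField.finiteDimensional _ (addPoly E0 (p ^ h) β)
  -- the action of the Galois group
  have hroot : ∀ (σ : K ≃ₐ[E0] K) (i : Fin n), ∃ α : Fin n → F, σ (v i) = ev v α := by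
    intro σ i
    have h7 : aeval (v i) (addPoly E0 (p ^ h) β) = 0 := by
      rw [aeval_def, ← eval_map, hprod, eval_prod]
      refine Finset.prod_eq_zero (Finset.mem_univ (Pi.single i (1 : F))) ?_
      rw [hevsingle, eval_sub, eval_X, eval_C, sub_self]
    have h8 : aeval (σ (v i)) (addPoly E0 (p ^ h) β) = 0 := by
      have := congrArg σ h7
      rw [map_zero] at this
      rw [← this]
      exact aeval_algHom_apply (σ : K →ₐ[E0] K) (v i) _
    rw [aeval_def, ← eval_map, hprod, eval_prod, Finset.prod_eq_zero_iff] at h8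
    obtain ⟨α, -, hα⟩ := h8
    rw [eval_sub, eval_X, eval_C, sub_eq_zero] at hα
    exact ⟨α, hα⟩
  choose u hu using hroot
  have hFfix : ∀ (σ : K ≃ₐ[E0] K) (a : F), σ (algebraMap F K a) = algebraMap F K a := by
    intro σ a
    rw [IsScalarTower.algebraMap_apply F k K]
    exact σ.commutes ⟨_, hk (algebraMap F k a)⟩
  have hinv : ∀ σ : K ≃ₐ[E0] K, (Matrix.of (u σ)) * (Matrix.of (u σ.symm)) = 1 := by
    intro σ
    have h9 : ∀ i, (fun r => ∑ j, u σ i j * u σ.symm j r) = Pi.single i (1 : F) := by
      intro i
      apply hv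
      rw [hevsingle]
      have h10 : σ.symm (σ (v i)) = v i := σ.symm_apply_apply _
      rw [← h10, hu σ i]
      have h11 : σ.symm (ev v (u σ i)) = ∑ j, algebraMap F _ (u σ i j) * ev v (u σ.symm j) := by
        unfold ev
        rw [map_sum]
        refine Finset.sum_congr rfl fun j _ => ?_
        rw [map_mul]
        have h12 := hu σ.symm j
        unfold ev at h12
        rw [h12, hFfix]
      rw [h11]
      unfold ev
      simp_rw [Finset.mul_sum]
      rw [Finset.sum_comm]
      refine Finset.sum_congr rfl fun r _ => ?_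
      rw [map_sum, Finset.sum_mul]
      refine Finset.sum_congr rfl fun j _ => ?_
      rw [map_mul, mul_assoc]
    ext i r
    rw [Matrix.mul_apply]
    have h13 := congrFun (h9 i) r
    simp only [Matrix.of_apply]
    rw [h13, Matrix.one_apply, Pi.single_apply]
    simp only [eq_comm]
  have hmem : w ∈ Set.range (algebraMap E0 K) := by
    rw [IsGalois.mem_range_algebraMap_iff_fixed]
    intro σ
    let g : GL (Fin n) F := ⟨Matrix.of (u σ), Matrix.of (u σ.symm), hinv σ, by
      have := hinv σ.symm
      simpa using this⟩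
    refine hw σ g ?_
    intro i l
    have h14 := hc l
    rw [h14 i, map_sum]
    have h15 : ∀ r : Fin n, σ ((c l r : K) * v i ^ ((p ^ h) ^ (r : ℕ))) =
        ∑ j : Fin n, algebraMap F _ (u σ i j) * ((c l r : K) * v j ^ ((p ^ h) ^ (r : ℕ))) := by
      intro r
      rw [map_mul, map_pow, hu σ i, ev_pow p h hq]
      have h16 : σ (c l r : K) = c l r := σ.commutes (c l r)
      rw [h16]
      unfold ev
      rw [Finset.mul_sum]
      refine Finset.sum_congr rfl fun j _ => by ring
    simp_rw [h15]
    rw [Finset.sum_comm]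
    refine Finset.sum_congr rfl fun j _ => ?_
    rw [h14 j, Finset.mul_sum]
    rfl
  obtain ⟨w', hw'⟩ := hmem
  rw [← hw']
  exact w'.2

end Abstract

section Fixed

variable [CharP k p]

omit [Finite L] in
/-- The Galois lemma: an intermediate field over which the lattice of the columns is defined
contains all the elements invariant under `H`, where `H` contains the Galois group. -/
lemma mem_of_fixed (hq : Fintype.card F = p ^ h) (hh : 1 ≤ h) (l0 : L)
    (E0 : Subfield (FractionRing (MvPolynomial (Fin n × L) k)))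
    (hk : ∀ a : k, algebraMap k (FractionRing (MvPolynomial (Fin n × L) k)) a ∈ E0)
    (b : Fin n → Fin n → FractionRing (MvPolynomial (Fin n × L) k))
    (hb : LinearIndependent (FractionRing (MvPolynomial (Fin n × L) k)) b)
    (hcol : ∀ l, (fun i : Fin n => Mg k L n i l) ∈ Submodule.span E0 (Set.range b))
    (hfrob : ∀ j, (fun i => b j i ^ (p ^ h)) ∈ Submodule.span E0 (Set.range b))
    (H : Subgroup (GL (Fin n) F))
    (hH : ∀ (σ : FractionRing (MvPolynomial (Fin n × L) k) ≃ₐ[E0]
        FractionRing (MvPolynomial (Fin n × L) k)) (u : GL (Fin n) F),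
      (∀ (i : Fin n) (l : L), σ (Mg k L n i l) = ∑ j : Fin n, algebraMap F _ (u.1 i j) *
        Mg k L n j l) → u ∈ H)
    (w : FractionRing (MvPolynomial (Fin n × L) k)) (hw : ∀ u ∈ H, sig u w = w) : w ∈ E0 := by
  have : CharP (FractionRing (MvPolynomial (Fin n × L) k)) p :=
    charP_of_injective_algebraMap (algebraMap k _).injective p
  refine mem_of_fixed_aux (F := F) (k := k) p h hq hh
    (fun (l : L) (i : Fin n) => Mg k L n i l) ?_ l0 (ev_injective l0) E0 hk b hb hcol hfrob w ?_
  · intro S hS1 hS2
    exact Mg_gen k L n S hS1 (fun i hi l => hS2 l ⟨i, hi⟩)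
  · intro σ u hu
    rw [eq_of_Mg (F := F) E0 hk σ u (fun i l => by rw [hu, sig_Mg]) w]
    exact hw u (hH σ u hu)

end Fixed

end Main

end Pool.Agent.H15Flag
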