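import Pool.Agent.Lib.Flag_H15.Alg

/-! # The generic matrix -/

set_option autoImplicit false

open Pool.Agent.H15Model Polynomial

namespace Pool.Agent.H15Flag

section Generic

variable (k : Type) [Field k] (L : Type) [Finite L] [DecidableEq L] (n : ℕ)

/-- The generic `n × L`-matrix. -/
noncomputable def Mg (k : Type) [Field k] (L : Type) (n : ℕ) :
    ℕ → L → FractionRing (MvPolynomial (Fin n × L) k) := fun i l =>
  if h : i < n then algebraMap (MvPolynomial (Fin n × L) k) _
    (MvPolynomial.X ((⟨i, h⟩ : Fin n), l)) else 0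

omit [Finite L] [DecidableEq L] in
lemma Mg_gen (F : Subalgebra k (FractionRing (MvPolynomial (Fin n × L) k)))
    (hinv : ∀ z ∈ F, z⁻¹ ∈ F) (hM : ∀ i < n, ∀ l, Mg k L n i l ∈ F) : F = ⊤ := by
  rw [eq_top_iff]
  intro z _
  have hB : ∀ b : MvPolynomial (Fin n × L) k, algebraMap _
      (FractionRing (MvPolynomial (Fin n × L) k)) b ∈ F := by
    intro b
    induction b using MvPolynomial.induction_on with
    | C a =>
      have : algebraMap (MvPolynomial (Fin n × L) k)
        (FractionRing (MvPolynomial (Fin n × L) k)) (MvPolynomial.C a) = algebraMap k _ a := by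
        rw [IsScalarTower.algebraMap_apply k (MvPolynomial (Fin n × L) k)]
        rfl
      rw [this]
      exact F.algebraMap_mem a
    | add x y hx hy => rw [map_add]; exact add_mem hx hy
    | mul_X x i hx =>
      rw [map_mul]
      refine mul_mem hx ?_
      have h1 := hM i.1 i.1.2 i.2
      rw [Mg, dif_pos i.1.2] at h1
      exact h1
  obtain ⟨a, b, hb, rfl⟩ := IsFractionRing.div_surjective (A := MvPolynomial (Fin n × L) k) z
  rw [div_eq_mul_inv]
  exact mul_mem (hB a) (hinv _ (hB b))

variable (p h : ℕ) [hp : Fact p.Prime] (s : ℕ → L) (e : ℕ → ℕ)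

lemma algebraicIndependent_gfam_aux (hh : 1 ≤ h) {t : ℕ} (ht : t ≤ n)
    (hx : ∀ i < t, xx (p ^ h) (Mg k L n) s i ≠ 0) (he : ∀ i < n, 1 ≤ e i) :
    AlgebraicIndependent k (gfam (p ^ h) (Mg k L n) s e n t) := by
  have halg := isAlgebraic_gfam (k := k) p h (Mg k L n) s e hh ht hx he (Mg_gen k L n)
  have hind : AlgebraicIndependent k (fun z : Fin n × L =>
      algebraMap (MvPolynomial (Fin n × L) k) (FractionRing (MvPolynomial (Fin n × L) k))
        (MvPolynomial.X z)) := by
    have h1 := (MvPolynomial.algebraicIndependent_X (Fin n × L) k)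
    exact h1.map' (f := IsScalarTower.toAlgHom k (MvPolynomial (Fin n × L) k)
      (FractionRing (MvPolynomial (Fin n × L) k))) (IsFractionRing.injective _ _)
  exact (Algebra.IsAlgebraic.isTranscendenceBasis_of_le_trdeg_of_finite k
    (gfam (p ^ h) (Mg k L n) s e n t) hind.cardinalMk_le_trdeg).1

lemma xx_ne_zero (hh : 1 ≤ h) : ∀ i < n, xx (p ^ h) (Mg k L n) s i ≠ 0 := by
  intro i
  induction i using Nat.strong_induction_on with
  | _ i ih =>
    intro hi
    have h1 := algebraicIndependent_gfam_aux k L n p h s (fun _ => 1) hh hi.le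
      (fun j hj => ih j hj (by omega)) (fun _ _ => le_rfl)
    have h2 := h1.ne_zero (⟨i, hi⟩, s i)
    simp only [gfam, lt_irrefl, if_false] at h2
    exact h2

lemma algebraicIndependent_gfam (hh : 1 ≤ h) {t : ℕ} (ht : t ≤ n) (he : ∀ i < n, 1 ≤ e i) :
    AlgebraicIndependent k (gfam (p ^ h) (Mg k L n) s e n t) :=
  algebraicIndependent_gfam_aux k L n p h s e hh ht
    (fun i hi => xx_ne_zero k L n p h s hh i (by omega)) he

lemma dch_eq_adjoin (hh : 1 ≤ h) : dch k (p ^ h) (Mg k L n) s e n =
    Algebra.adjoin k (Set.range (gfam (p ^ h) (Mg k L n) s e n n)) := by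
  apply le_antisymm
  · unfold dch
    rw [Algebra.adjoin_le_iff]
    rintro z (⟨i, hi, rfl⟩ | ⟨i, hi, l, rfl⟩)
    · refine Algebra.subset_adjoin ⟨(⟨i, hi⟩, s i), ?_⟩
      simp only [gfam, if_pos hi, if_true]
    · by_cases hl : l = s i
      · have : ph (p ^ h) (Mg k L n) s i l = 1 := by
          rw [hl]
          exact div_self (xx_ne_zero k L n p h s hh i hi)
        rw [this]
        exact one_mem _
      · refine Algebra.subset_adjoin ⟨(⟨i, hi⟩, l), ?_⟩
        simp only [gfam, if_pos hi, if_neg hl]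
  · rw [Algebra.adjoin_le_iff]
    rintro _ ⟨⟨i, l⟩, rfl⟩
    simp only [gfam, i.2, if_true]
    split_ifs with hl
    · exact xx_pow_mem p h _ s e i.2 dvd_rfl
    · exact ph_mem p h _ s e i.2 l

lemma smooth_dch (hh : 1 ≤ h) (he : ∀ i < n, 1 ≤ e i) :
    Algebra.Smooth k (dch k (p ^ h) (Mg k L n) s e n) := by
  rw [dch_eq_adjoin k L n p h s e hh]
  have h1 := algebraicIndependent_gfam k L n p h s e hh le_rfl he
  have : Algebra.FinitePresentation k (MvPolynomial (Fin n × L) k) := inferInstance
  have : Algebra.FormallySmooth k (MvPolynomial (Fin n × L) k) := inferInstance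
  have : Algebra.Smooth k (MvPolynomial (Fin n × L) k) := ⟨inferInstance, inferInstance⟩
  exact Algebra.Smooth.of_equiv h1.aevalEquiv

end Generic

end Pool.Agent.H15Flag
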