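import Pool.Agent.Lib.Flag_H15.Rows

/-! # The modules spanned by the Frobenius twists of the columns, and the gluing condition -/

set_option autoImplicit false

open Pool.Agent.H15Model

namespace Pool.Agent.H15Flag

variable {k K : Type} [Field k] [Field K] [Algebra k K] {L : Type} [DecidableEq L]
variable (p h : ℕ) [hp : Fact p.Prime] [CharP K p] (M : ℕ → L → K) (s : ℕ → L) (e : ℕ → ℕ)

/-- The chart ring after `t` stages. -/
noncomputable def dch (k : Type) {K : Type} [Field k] [Field K] [Algebra k K] {L : Type}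
    [DecidableEq L] (q : ℕ) (M : ℕ → L → K) (s : ℕ → L) (e : ℕ → ℕ) (t : ℕ) : Subalgebra k K :=
  Algebra.adjoin k ({z | ∃ i < t, z = xx q M s i ^ e i} ∪ {z | ∃ i < t, ∃ l, z = ph q M s i l})

omit hp [CharP K p] in
lemma xx_pow_mem {t i : ℕ} (hi : i < t) {n : ℕ} (hn : e i ∣ n) :
    xx (p ^ h) M s i ^ n ∈ dch k (p ^ h) M s e t := by
  obtain ⟨d, rfl⟩ := hn
  rw [pow_mul]
  have h1 : xx (p ^ h) M s i ^ e i ∈ dch k (p ^ h) M s e t :=
    Algebra.subset_adjoin (Or.inl ⟨i, hi, rfl⟩)
  exact pow_mem h1 d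

omit hp [CharP K p] in
lemma ph_mem {t i : ℕ} (hi : i < t) (l : L) : ph (p ^ h) M s i l ∈ dch k (p ^ h) M s e t :=
  Algebra.subset_adjoin (Or.inr ⟨i, hi, l, rfl⟩)

omit hp [CharP K p] in
lemma dch_mono {t t' : ℕ} (ht : t ≤ t') : dch k (p ^ h) M s e t ≤ dch k (p ^ h) M s e t' := by
  apply Algebra.adjoin_mono
  rintro z (⟨i, hi, rfl⟩ | ⟨i, hi, l, rfl⟩)
  · exact Or.inl ⟨i, by omega, rfl⟩
  · exact Or.inr ⟨i, by omega, l, rfl⟩

omit hp [CharP K p] in
lemma dch_succ (t : ℕ) : dch k (p ^ h) M s e (t + 1) = dch k (p ^ h) M s e t ⊔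
    Algebra.adjoin k ({xx (p ^ h) M s t ^ e t} ∪ Set.range (ph (p ^ h) M s t)) := by
  apply le_antisymm
  · unfold dch
    rw [Algebra.adjoin_le_iff]
    rintro z (⟨i, hi, rfl⟩ | ⟨i, hi, l, rfl⟩)
    · rcases Nat.lt_succ_iff_lt_or_eq.mp hi with hi' | rfl
      · exact (le_sup_left (a := Algebra.adjoin k _)) (Algebra.subset_adjoin (Or.inl ⟨i, hi', rfl⟩))
      · exact (le_sup_right (b := Algebra.adjoin k _)) (Algebra.subset_adjoin (Or.inl rfl))
    · rcases Nat.lt_succ_iff_lt_or_eq.mp hi with hi' | rfl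
      · exact (le_sup_left (a := Algebra.adjoin k _))
          (Algebra.subset_adjoin (Or.inr ⟨i, hi', l, rfl⟩))
      · exact (le_sup_right (b := Algebra.adjoin k _)) (Algebra.subset_adjoin (Or.inr ⟨l, rfl⟩))
  · refine sup_le (dch_mono p h M s e (Nat.le_succ t)) ?_
    rw [Algebra.adjoin_le_iff]
    rintro z (hz | ⟨l, rfl⟩)
    · rw [Set.mem_singleton_iff.mp hz]
      exact Algebra.subset_adjoin (Or.inl ⟨t, Nat.lt_succ_self t, rfl⟩)
    · exact Algebra.subset_adjoin (Or.inr ⟨t, Nat.lt_succ_self t, l, rfl⟩)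

/-- The `E`-module spanned by the Frobenius twists of the columns after `t` stages. -/
noncomputable def Lam (q : ℕ) (M : ℕ → L → K) (s : ℕ → L) (E : Subalgebra k K) (t : ℕ) :
    Submodule E (ℕ → K) :=
  Submodule.span E {v | ∃ (r : ℕ) (l : L), v = fun i => row q M s t i l ^ (q ^ r)}

lemma lam_mono (q : ℕ) {E E' : Subalgebra k K} (hE : E ≤ E') {t : ℕ} {v : ℕ → K}
    (hv : v ∈ Lam q M s E t) : v ∈ Lam q M s E' t := by
  induction hv using Submodule.span_induction with
  | mem v hv => exact Submodule.subset_span hv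
  | zero => exact zero_mem _
  | add x y _ _ hx hy => exact add_mem hx hy
  | smul c v _ hv => exact Submodule.smul_mem _ (⟨c.1, hE c.2⟩ : E') hv

lemma lam_col (q : ℕ) (E : Subalgebra k K) (t : ℕ) (l : L) :
    (fun i => row q M s t i l) ∈ Lam q M s E t :=
  Submodule.subset_span ⟨0, l, by simp⟩

lemma lam_frob (E : Subalgebra k K) {t : ℕ} {v : ℕ → K} (hv : v ∈ Lam (p ^ h) M s E t) :
    (fun i => v i ^ (p ^ h)) ∈ Lam (p ^ h) M s E t := by
  induction hv using Submodule.span_induction with
  | mem v hv =>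
    obtain ⟨r, l, rfl⟩ := hv
    refine Submodule.subset_span ⟨r + 1, l, ?_⟩
    funext i
    rw [← pow_mul, pow_succ (p ^ h) r]
  | zero =>
    have : (fun i : ℕ => (0 : ℕ → K) i ^ (p ^ h)) = 0 := by
      funext i
      exact zero_pow (pow_pos hp.out.pos h).ne'
    rw [this]; exact zero_mem _
  | add x y _ _ hx hy =>
    have : (fun i => (x + y) i ^ (p ^ h)) = (fun i => x i ^ (p ^ h)) + fun i => y i ^ (p ^ h) := by
      funext i
      simp only [Pi.add_apply]
      rw [add_pow_char_pow]
    rw [this]; exact add_mem hx hy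
  | smul c v _ hv =>
    have : (fun i => (c • v) i ^ (p ^ h)) = (c ^ (p ^ h)) • fun i => v i ^ (p ^ h) := by
      funext i
      change ((c : K) * v i) ^ (p ^ h) = ((c ^ (p ^ h) : E) : K) * v i ^ (p ^ h)
      rw [mul_pow]
      rfl
    rw [this]; exact Submodule.smul_mem _ _ hv

omit [CharP K p] in
lemma lam_vanish (E : Subalgebra k K) {t : ℕ} (hx : ∀ i < t, xx (p ^ h) M s i ≠ 0) {v : ℕ → K}
    (hv : v ∈ Lam (p ^ h) M s E t) {i : ℕ} (hi : i < t) : v i = 0 := by
  induction hv using Submodule.span_induction with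
  | mem v hv =>
    obtain ⟨r, l, rfl⟩ := hv
    have hq : (p ^ h) ^ r ≠ 0 := (pow_pos (pow_pos hp.out.pos h) r).ne'
    simp only [row_eq_zero p h M s hx hi, Pi.zero_apply]
    exact zero_pow hq
  | zero => rfl
  | add x y _ _ hx hy => simp only [Pi.add_apply]; rw [hx, hy, add_zero]
  | smul c v _ hv =>
    change (c : K) * v i = 0
    rw [hv, mul_zero]

/-- One stage: the elements of the module at stage `t` are multiples of the pivot column up to
elements of the module at stage `t + 1`. -/
lemma lam_step (E : Subalgebra k K) {t : ℕ} (hx : xx (p ^ h) M s t ≠ 0)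
    (hph : ∀ l, ph (p ^ h) M s t l ∈ E) (hxx : xx (p ^ h) M s t ^ (p ^ h - 1) ∈ E) {v : ℕ → K}
    (hv : v ∈ Lam (p ^ h) M s E t) :
    ∃ c : E, (fun i => v i - (c : K) * row (p ^ h) M s t i (s t)) ∈ Lam (p ^ h) M s E (t + 1) := by
  have hfw : ∀ i, row (p ^ h) M s t i (s t) ^ (p ^ h) = row (p ^ h) M s (t + 1) i (s t) +
      xx (p ^ h) M s t ^ (p ^ h - 1) * row (p ^ h) M s t i (s t) := by
    intro i
    rw [row_succ]
    simp only [red, if_true]
    ring
  have gen : ∀ (r : ℕ) (l : L), ∃ c : E,
      (fun i => row (p ^ h) M s t i l ^ ((p ^ h) ^ r) - (c : K) * row (p ^ h) M s t i (s t)) ∈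
        Lam (p ^ h) M s E (t + 1) := by
    intro r l
    induction r with
    | zero =>
      refine ⟨⟨ph (p ^ h) M s t l, hph l⟩, ?_⟩
      by_cases hl : l = s t
      · have : (fun i => row (p ^ h) M s t i l ^ ((p ^ h) ^ 0) -
            ((⟨ph (p ^ h) M s t l, hph l⟩ : E) : K) * row (p ^ h) M s t i (s t)) = 0 := by
          funext i
          subst hl
          simp only [pow_zero, pow_one, Pi.zero_apply]
          have h1 : ph (p ^ h) M s t (s t) = 1 := by
            unfold ph
            exact div_self hx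
          rw [h1, one_mul, sub_self]
        rw [this]; exact zero_mem _
      · have : (fun i => row (p ^ h) M s t i l ^ ((p ^ h) ^ 0) -
            ((⟨ph (p ^ h) M s t l, hph l⟩ : E) : K) * row (p ^ h) M s t i (s t)) =
            fun i => row (p ^ h) M s (t + 1) i l := by
          funext i
          rw [row_succ]
          simp only [red, if_neg hl, pow_zero, pow_one]
        rw [this]
        exact lam_col M s _ E (t + 1) l
    | succ r ih =>
      obtain ⟨c, hc⟩ := ih
      refine ⟨c ^ (p ^ h) * ⟨_, hxx⟩, ?_⟩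
      have h1 := lam_frob p h M s E hc
      have h2 : (fun i => row (p ^ h) M s t i l ^ ((p ^ h) ^ (r + 1)) -
          ((c ^ (p ^ h) * ⟨_, hxx⟩ : E) : K) * row (p ^ h) M s t i (s t)) =
          (fun i => (row (p ^ h) M s t i l ^ ((p ^ h) ^ r) -
            (c : K) * row (p ^ h) M s t i (s t)) ^ (p ^ h)) +
          (c ^ (p ^ h) : E) • fun i => row (p ^ h) M s (t + 1) i (s t) := by
        funext i
        have e1 : row (p ^ h) M s t i l ^ ((p ^ h) ^ (r + 1)) =
            (row (p ^ h) M s t i l ^ ((p ^ h) ^ r)) ^ (p ^ h) := by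
          rw [pow_succ (p ^ h) r, pow_mul]
        simp only [Pi.add_apply, Pi.smul_apply]
        rw [sub_pow_char_pow, mul_pow, hfw i, e1]
        change _ - (c : K) ^ (p ^ h) * xx (p ^ h) M s t ^ (p ^ h - 1) * _ =
          _ + (c : K) ^ (p ^ h) * _
        ring
      rw [h2]
      exact add_mem h1 (Submodule.smul_mem _ _ (lam_col M s _ E (t + 1) (s t)))
  induction hv using Submodule.span_induction with
  | mem v hv =>
    obtain ⟨r, l, rfl⟩ := hv
    exact gen r l
  | zero =>
    refine ⟨0, ?_⟩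
    have : (fun i : ℕ => (0 : ℕ → K) i - ((0 : E) : K) * row (p ^ h) M s t i (s t)) = 0 := by
      funext i; simp
    rw [this]; exact zero_mem _
  | add x y _ _ hx hy =>
    obtain ⟨c, hc⟩ := hx
    obtain ⟨d, hd⟩ := hy
    refine ⟨c + d, ?_⟩
    have : (fun i => (x + y) i - ((c + d : E) : K) * row (p ^ h) M s t i (s t)) =
        (fun i => x i - (c : K) * row (p ^ h) M s t i (s t)) +
        fun i => y i - (d : K) * row (p ^ h) M s t i (s t) := by
      funext i
      simp only [Pi.add_apply]
      change x i + y i - ((c : K) + d) * _ = _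
      ring
    rw [this]; exact add_mem hc hd
  | smul a v _ hv =>
    obtain ⟨c, hc⟩ := hv
    refine ⟨a * c, ?_⟩
    have : (fun i => (a • v) i - ((a * c : E) : K) * row (p ^ h) M s t i (s t)) =
        a • fun i => v i - (c : K) * row (p ^ h) M s t i (s t) := by
      funext i
      change (a : K) * v i - ((a : K) * c) * _ = (a : K) * (_ - _)
      ring
    rw [this]; exact Submodule.smul_mem _ _ hc


/-! ### The gluing condition -/

section Glue

variable (s' : ℕ → L)

/-- the ring of the intersection of two charts -/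
noncomputable def ech (k : Type) {K : Type} [Field k] [Field K] [Algebra k K] {L : Type}
    [DecidableEq L] (q : ℕ) (M : ℕ → L → K) (s s' : ℕ → L) (e : ℕ → ℕ) (t : ℕ) : Subalgebra k K :=
  dch k q M s e t ⊔ dch k q M s' e t

/-- half of the inductive step -/
lemma glue_step {t : ℕ} (he : e t ∣ p ^ h - 1)
    (hx : ∀ i ≤ t, xx (p ^ h) M s i ≠ 0) (hx' : xx (p ^ h) M s' t ≠ 0)
    (h1 : IsAway (dch k (p ^ h) M s e t) (ech k (p ^ h) M s s' e t))
    (h2 : ∀ l, (fun i => row (p ^ h) M s' t i l) ∈ Lam (p ^ h) M s (ech k (p ^ h) M s s' e t) t)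
    (h3 : ∃ c ∈ ech k (p ^ h) M s s' e (t + 1), xx (p ^ h) M s t = c * xx (p ^ h) M s' t) :
    IsAway (dch k (p ^ h) M s e (t + 1)) (ech k (p ^ h) M s s' e (t + 1)) ∧
    (∀ l, (fun i => row (p ^ h) M s' (t + 1) i l) ∈
      Lam (p ^ h) M s (ech k (p ^ h) M s s' e (t + 1)) (t + 1)) := by
  set q := p ^ h with hq
  have hxt := hx t le_rfl
  set F := dch k q M s e (t + 1) ⊔ ech k q M s s' e t with hF
  have hDF : dch k q M s e (t + 1) ≤ F := le_sup_left
  have hEF : ech k q M s s' e t ≤ F := le_sup_right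
  have hFE : F ≤ ech k q M s s' e (t + 1) := by
    refine sup_le le_sup_left (sup_le ?_ ?_)
    · exact (dch_mono p h M s e (Nat.le_succ t)).trans le_sup_left
    · exact (dch_mono p h M s' e (Nat.le_succ t)).trans le_sup_right
  have hphF : ∀ l, ph q M s t l ∈ F := fun l => hDF (ph_mem p h M s e (Nat.lt_succ_self t) l)
  have hxxF : xx q M s t ^ (q - 1) ∈ F := hDF (xx_pow_mem p h M s e (Nat.lt_succ_self t) he)
  have hcol : ∀ l, ∃ c : F, (fun i => row q M s' t i l - (c : K) * row q M s t i (s t)) ∈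
      Lam q M s F (t + 1) := fun l => lam_step p h M s F hxt hphF hxxF (lam_mono M s q hEF (h2 l))
  choose c hc using hcol
  have hval : ∀ l, row q M s' t t l = (c l : K) * xx q M s t := by
    intro l
    have := lam_vanish p h M s F (t := t + 1) (fun i hi => hx i (by omega)) (hc l)
      (Nat.lt_succ_self t)
    exact sub_eq_zero.mp this
  set u : K := (c (s' t) : K) with hu
  have hxu : xx q M s' t = u * xx q M s t := hval (s' t)
  have hu0 : u ≠ 0 := by
    intro h0
    rw [h0, zero_mul] at hxu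
    exact hx' hxu
  have hph' : ∀ l, ph q M s' t l = (c l : K) * u⁻¹ := by
    intro l
    unfold ph
    rw [hval l, hxu]
    field_simp
  have huinv : u⁻¹ ∈ ech k q M s s' e (t + 1) := by
    obtain ⟨d, hd, hdx⟩ := h3
    have : u⁻¹ = d := by
      rw [hxu] at hdx
      have h5 : d * u = 1 := by
        have h6 : (d * u - 1) * xx q M s t = 0 := by linear_combination -hdx
        exact sub_eq_zero.mp ((mul_eq_zero.mp h6).resolve_right hxt)
      exact inv_eq_of_mul_eq_one_left h5
    rw [this]; exact hd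
  have hphE' : ∀ l, ph q M s' t l ∈ ech k q M s s' e (t + 1) := fun l =>
    (le_sup_right : dch k q M s' e (t + 1) ≤ _) (ph_mem p h M s' e (Nat.lt_succ_self t) l)
  have hxxE' : xx q M s' t ^ (q - 1) ∈ ech k q M s s' e (t + 1) :=
    (le_sup_right : dch k q M s' e (t + 1) ≤ _) (xx_pow_mem p h M s' e (Nat.lt_succ_self t) he)
  refine ⟨?_, ?_⟩
  · have hA : IsAway (dch k q M s e (t + 1)) F :=
      h1.sup_right (dch_mono p h M s e (Nat.le_succ t))
    refine hA.trans ⟨u, ?_⟩
    apply awayOf_of_generated hFE (c (s' t)).2 hu0 huinv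
      ({xx q M s' t ^ e t} ∪ Set.range (ph q M s' t))
    · rintro z (hz | ⟨l, rfl⟩)
      · refine ⟨0, ?_⟩
        rw [Set.mem_singleton_iff.mp hz, pow_zero, mul_one, hxu, mul_pow]
        exact mul_mem (pow_mem (c (s' t)).2 _)
          (hDF (xx_pow_mem p h M s e (Nat.lt_succ_self t) dvd_rfl))
      · refine ⟨1, ?_⟩
        rw [pow_one, hph' l, mul_assoc, inv_mul_cancel₀ hu0, mul_one]
        exact (c l).2
    · unfold ech
      rw [dch_succ p h M s' e t]
      refine sup_le (hDF.trans le_sup_left) (sup_le ?_ le_sup_right)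
      exact (le_sup_right.trans hEF).trans le_sup_left
  · intro l
    by_cases hl : l = s' t
    · -- the pivot column
      have hv := lam_mono M s q hFE (hc (s' t))
      have hfv := lam_frob p h M s _ hv
      have h4 : (fun i => row q M s' (t + 1) i l) =
          ((⟨u, hFE (c (s' t)).2⟩ : ech k q M s s' e (t + 1)) ^ q) •
            (fun i => row q M s (t + 1) i (s t)) +
          ((fun i => (row q M s' t i (s' t) - u * row q M s t i (s t)) ^ q) -
          (⟨_, hxxE'⟩ : ech k q M s s' e (t + 1)) •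
            fun i => row q M s' t i (s' t) - u * row q M s t i (s t)) := by
        funext i
        simp only [Pi.add_apply, Pi.sub_apply, Pi.smul_apply]
        rw [row_succ, row_succ]
        simp only [red, if_pos hl, if_true]
        change _ = u ^ q * _ + (_ - xx q M s' t ^ (q - 1) * _)
        rw [hq, sub_pow_char_pow, mul_pow, hxu, mul_pow, ← hq]
        have hq1 : u ^ q = u ^ (q - 1) * u := by
          have : 0 < q := pow_pos hp.out.pos h
          rw [← pow_succ]
          congr 1
          omega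
        rw [hq1]
        ring
      rw [h4]
      refine add_mem (Submodule.smul_mem _ _ (lam_col M s q _ (t + 1) (s t)))
        (sub_mem hfv (Submodule.smul_mem _ _ hv))
    · have hv := lam_mono M s q hFE (hc (s' t))
      have hvl := lam_mono M s q hFE (hc l)
      have h4 : (fun i => row q M s' (t + 1) i l) =
          (fun i => row q M s' t i l - (c l : K) * row q M s t i (s t)) -
          (⟨_, hphE' l⟩ : ech k q M s s' e (t + 1)) •
            fun i => row q M s' t i (s' t) - u * row q M s t i (s t) := by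
        funext i
        simp only [Pi.sub_apply, Pi.smul_apply]
        rw [row_succ]
        simp only [red, if_neg hl]
        change _ = _ - ph q M s' t l * _
        rw [hph' l]
        field_simp
        ring
      rw [h4]
      exact sub_mem hvl (Submodule.smul_mem _ _ hv)

omit hp [CharP K p] in
lemma ech_comm (t : ℕ) : ech k (p ^ h) M s s' e t = ech k (p ^ h) M s' s e t := sup_comm _ _

lemma xx_ratio {t : ℕ} (he : e t ∣ p ^ h - 1)
    (hx : ∀ i ≤ t, xx (p ^ h) M s i ≠ 0)
    (h2 : ∀ l, (fun i => row (p ^ h) M s' t i l) ∈ Lam (p ^ h) M s (ech k (p ^ h) M s s' e t) t) :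
    ∃ c ∈ ech k (p ^ h) M s s' e (t + 1), xx (p ^ h) M s' t = c * xx (p ^ h) M s t := by
  set F := dch k (p ^ h) M s e (t + 1) ⊔ ech k (p ^ h) M s s' e t with hF
  have hFE : F ≤ ech k (p ^ h) M s s' e (t + 1) := by
    refine sup_le le_sup_left (sup_le ?_ ?_)
    · exact (dch_mono p h M s e (Nat.le_succ t)).trans le_sup_left
    · exact (dch_mono p h M s' e (Nat.le_succ t)).trans le_sup_right
  have hDF : dch k (p ^ h) M s e (t + 1) ≤ F := le_sup_left
  obtain ⟨c, hc⟩ := lam_step p h M s F (hx t le_rfl)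
    (fun l => hDF (ph_mem p h M s e (Nat.lt_succ_self t) l))
    (hDF (xx_pow_mem p h M s e (Nat.lt_succ_self t) he))
    (lam_mono M s (p ^ h) (le_sup_right : _ ≤ F) (h2 (s' t)))
  refine ⟨c, hFE c.2, ?_⟩
  have := lam_vanish p h M s F (t := t + 1) (fun i hi => hx i (by omega)) hc
      (Nat.lt_succ_self t)
  exact sub_eq_zero.mp this

lemma glue_all (n : ℕ) (he : ∀ i < n, e i ∣ p ^ h - 1)
    (hx : ∀ i < n, xx (p ^ h) M s i ≠ 0) (hx' : ∀ i < n, xx (p ^ h) M s' i ≠ 0) :
    ∀ t ≤ n, IsAway (dch k (p ^ h) M s e t) (ech k (p ^ h) M s s' e t) ∧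
      IsAway (dch k (p ^ h) M s' e t) (ech k (p ^ h) M s s' e t) ∧
      (∀ l, (fun i => row (p ^ h) M s' t i l) ∈
        Lam (p ^ h) M s (ech k (p ^ h) M s s' e t) t) ∧
      (∀ l, (fun i => row (p ^ h) M s t i l) ∈
        Lam (p ^ h) M s' (ech k (p ^ h) M s s' e t) t) := by
  intro t
  induction t with
  | zero =>
    intro _
    have h0 : ∀ s : ℕ → L, dch k (p ^ h) M s e 0 = ⊥ := by
      intro s
      unfold dch
      have : ({z | ∃ i < 0, z = xx (p ^ h) M s i ^ e i} ∪
          {z | ∃ i < 0, ∃ l, z = ph (p ^ h) M s i l} : Set K) = ∅ := by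
        ext z; simp
      rw [this, Algebra.adjoin_empty]
    have h1 : ech k (p ^ h) M s s' e 0 = ⊥ := by
      unfold ech
      rw [h0, h0, sup_idem]
    rw [h0, h0, h1]
    exact ⟨IsAway.refl _, IsAway.refl _, fun l => lam_col M s _ _ 0 l,
      fun l => lam_col M s' _ _ 0 l⟩
  | succ t ih =>
    intro ht
    obtain ⟨h1, h2, h3, h4⟩ := ih (by omega)
    have hxt : ∀ i ≤ t, xx (p ^ h) M s i ≠ 0 := fun i hi => hx i (by omega)
    have hxt' : ∀ i ≤ t, xx (p ^ h) M s' i ≠ 0 := fun i hi => hx' i (by omega)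
    have r1 := xx_ratio p h M s e s' (he t (by omega)) hxt h3
    have r2 : ∃ c ∈ ech k (p ^ h) M s' s e (t + 1), xx (p ^ h) M s t = c * xx (p ^ h) M s' t := by
      apply xx_ratio p h M s' e s (he t (by omega)) hxt'
      rw [ech_comm p h M s' e s t]
      exact h4
    rw [ech_comm p h M s' e s] at r2
    have a1 := glue_step p h M s e s' (he t (by omega)) hxt (hxt' t le_rfl) h1 h3 r2
    have a2 := glue_step (k := k) p h M s' e s (he t (by omega)) hxt' (hxt t le_rfl)
      (by rw [ech_comm p h M s' e s]; exact h2) (by rw [ech_comm p h M s' e s]; exact h4)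
      (by rw [ech_comm p h M s' e s]; exact r1)
    rw [ech_comm p h M s' e s] at a2
    exact ⟨a1.1, a2.1, a1.2, a2.2⟩

lemma isAway_dch (n : ℕ) (he : ∀ i < n, e i ∣ p ^ h - 1)
    (hx : ∀ i < n, xx (p ^ h) M s i ≠ 0) (hx' : ∀ i < n, xx (p ^ h) M s' i ≠ 0) :
    IsAway (dch k (p ^ h) M s e n) (dch k (p ^ h) M s e n ⊔ dch k (p ^ h) M s' e n) :=
  (glue_all p h M s e s' n he hx hx' n le_rfl).1

end Glue

/-! ### Valuation rings -/

omit hp [CharP K p] in
/-- Every valuation ring that contains the entries contains one of the chart rings. -/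
lemma exists_chart_of_valuation [Finite L] [Nonempty L] (n : ℕ) (V : ValuationSubring K)
    (hk : ∀ a : k, algebraMap k K a ∈ V) (hM : ∀ i l, M i l ∈ V)
    (hx : ∀ s : ℕ → L, ∀ i < n, xx (p ^ h) M s i ≠ 0) :
    ∃ s : ℕ → L, ∀ c ∈ dch k (p ^ h) M s e n, c ∈ V := by
  -- greedy choice of the pivots
  have key : ∀ t ≤ n, ∃ s : ℕ → L, ∀ i < t, ∀ l, ph (p ^ h) M s i l ∈ V := by
    intro t
    induction t with
    | zero => exact fun _ => ⟨fun _ => Classical.arbitrary L, fun i hi => absurd hi (by omega)⟩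
    | succ t ih =>
      intro ht
      obtain ⟨s, hs⟩ := ih (by omega)
      -- choose the entry of the pivot row with the smallest value
      obtain ⟨j, hj⟩ : ∃ j : L, ∀ l, row (p ^ h) M s t t l / row (p ^ h) M s t t j ∈ V := by
        have hne : ∀ l, row (p ^ h) M s t t l ≠ 0 := by
          intro l h0
          apply hx (Function.update s t l) t (by omega)
          unfold xx
          rw [row_congr (p ^ h) M (s' := s) (fun i hi => Function.update_of_ne (by omega) _ _)]
          simpa using h0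
        obtain ⟨j, hj⟩ := Finite.exists_max (fun l => V.valuation (row (p ^ h) M s t t l))
        refine ⟨j, fun l => ?_⟩
        rw [← ValuationSubring.valuation_le_one_iff, map_div₀]
        exact div_le_one_of_le₀ (hj l) zero_le
      refine ⟨Function.update s t j, ?_⟩
      intro i hi l
      have hcong : ∀ i' ≤ t, row (p ^ h) M (Function.update s t j) i' = row (p ^ h) M s i' := by
        intro i' hi'
        exact row_congr (p ^ h) M (fun i'' hi'' => Function.update_of_ne (by omega) _ _)
      rcases Nat.lt_succ_iff_lt_or_eq.mp hi with hi' | rfl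
      · have : ph (p ^ h) M (Function.update s t j) i l = ph (p ^ h) M s i l := by
          unfold ph xx
          rw [hcong i hi'.le, Function.update_of_ne (by omega)]
        rw [this]
        exact hs i hi' l
      · have : ph (p ^ h) M (Function.update s i j) i l =
            row (p ^ h) M s i i l / row (p ^ h) M s i i j := by
          unfold ph xx
          rw [hcong i le_rfl, Function.update_self]
        rw [this]
        exact hj l
  obtain ⟨s, hs⟩ := key n le_rfl
  -- all the entries stay in `V`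
  have hrow : ∀ t ≤ n, ∀ i l, row (p ^ h) M s t i l ∈ V := by
    intro t
    induction t with
    | zero => exact fun _ i l => hM i l
    | succ t ih =>
      intro ht i l
      have ih' := ih (by omega)
      rw [row_succ]
      simp only [red]
      split_ifs with hl
      · exact sub_mem (pow_mem (ih' _ _) _) (mul_mem (pow_mem (ih' _ _) _) (ih' _ _))
      · exact sub_mem (ih' _ _) (mul_mem (hs t (by omega) l) (ih' _ _))
  refine ⟨s, ?_⟩
  intro c hc
  unfold dch at hc
  induction hc using Algebra.adjoin_induction with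
  | mem z hz =>
    rcases hz with ⟨i, hi, rfl⟩ | ⟨i, hi, l, rfl⟩
    · exact pow_mem (hrow i hi.le i (s i)) _
    · exact hs i hi l
  | algebraMap r => exact hk r
  | add x y _ _ hx hy => exact add_mem hx hy
  | mul x y _ _ hx hy => exact mul_mem hx hy

end Pool.Agent.H15Flag
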