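import Pool.Agent.Lib.Flag_H15.Act
import Pool.Agent.Lib.Flag_H15.Gen

/-! # Moore matrices and splitting fields of `q`-polynomials -/

set_option autoImplicit false

open Polynomial

namespace Pool.Agent.H15Flag

section Moore

variable {F K : Type} [Field F] [Fintype F] [Field K] [Algebra F K] {n : ℕ}

/-- The linear combinations with coefficients in the finite field. -/
noncomputable def ev (v : Fin n → K) (α : Fin n → F) : K := ∑ i, algebraMap F K (α i) * v i

variable (p h : ℕ) [hp : Fact p.Prime] [CharP K p] (hq : Fintype.card F = p ^ h)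

include hq in
omit [CharP K p] hp in
lemma frob_F (a : F) (r : ℕ) : algebraMap F K a ^ ((p ^ h) ^ r) = algebraMap F K a := by
  rw [← hq, ← map_pow, FiniteField.pow_card_pow]

include hq in
lemma ev_pow (v : Fin n → K) (α : Fin n → F) (r : ℕ) :
    ev v α ^ ((p ^ h) ^ r) = ev (fun i => v i ^ ((p ^ h) ^ r)) α := by
  unfold ev
  rw [← pow_mul p h r, sum_pow_char_pow]
  refine Finset.sum_congr rfl fun i _ => ?_
  rw [mul_pow, pow_mul p h r, frob_F p h hq]

include hq in
/-- The columns of a Moore matrix are linearly independent. -/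
lemma moore_indep (hh : 1 ≤ h) (v : Fin n → K) (hv : Function.Injective (ev (F := F) v)) :
    LinearIndependent K (fun (r : Fin n) (i : Fin n) => v i ^ ((p ^ h) ^ (r : ℕ))) := by
  rw [Fintype.linearIndependent_iff]
  intro a ha
  have hq2 : 2 ≤ p ^ h := by
    calc 2 ≤ p := hp.out.two_le
      _ = p ^ 1 := (pow_one p).symm
      _ ≤ p ^ h := Nat.pow_le_pow_right hp.out.pos hh
  by_cases hn : n = 0
  · intro r; exact absurd r.2 (by omega)
  let P : K[X] := ∑ r : Fin n, C (a r) * X ^ ((p ^ h) ^ (r : ℕ))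
  have hP : P = 0 := by
    refine eq_zero_of_natDegree_lt_card_of_eval_eq_zero P hv ?_ ?_
    · intro α
      simp only [P, eval_finsetSum, eval_mul, eval_C, eval_pow, eval_X]
      simp_rw [ev_pow p h hq]
      unfold ev
      simp_rw [Finset.mul_sum]
      rw [Finset.sum_comm]
      refine Finset.sum_eq_zero fun i _ => ?_
      have h1 := congrFun ha i
      simp only [Finset.sum_apply, Pi.smul_apply, smul_eq_mul, Pi.zero_apply] at h1
      calc ∑ r : Fin n, a r * (algebraMap F K (α i) * v i ^ ((p ^ h) ^ (r : ℕ)))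
          = algebraMap F K (α i) * ∑ r : Fin n, a r * v i ^ ((p ^ h) ^ (r : ℕ)) := by
            rw [Finset.mul_sum]; refine Finset.sum_congr rfl fun r _ => by ring
        _ = 0 := by rw [h1, mul_zero]
    · rw [Fintype.card_fun, Fintype.card_fin, hq]
      have h2 : P.natDegree ≤ (p ^ h) ^ (n - 1) := by
        refine natDegree_sum_le_of_forall_le _ _ ?_
        intro r _
        refine (natDegree_C_mul_X_pow_le _ _).trans ?_
        exact Nat.pow_le_pow_right (by omega) (by omega)
      refine lt_of_le_of_lt h2 ?_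
      exact Nat.pow_lt_pow_right (by omega) (by omega)
  intro r
  have h3 : P.coeff ((p ^ h) ^ (r : ℕ)) = a r := by
    simp only [P, finsetSum_coeff, coeff_C_mul, coeff_X_pow]
    rw [Finset.sum_eq_single r]
    · simp
    · intro r' _ hr'
      rw [if_neg, mul_zero]
      intro h4
      exact hr' (Fin.ext (Nat.pow_right_injective hq2 h4).symm)
    · intro h5; exact absurd (Finset.mem_univ r) h5
  rw [← h3, hP, coeff_zero]

end Moore

section Split

variable {F K : Type} [Field F] [Fintype F] [Field K] [Algebra F K] {n : ℕ}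
variable (p h : ℕ) [hp : Fact p.Prime] [CharP K p] (hq : Fintype.card F = p ^ h)
variable (E0 : Subfield K)

/-- The additive polynomial. -/
noncomputable def addPoly (q : ℕ) (β : Fin n → E0) : E0[X] :=
  X ^ (q ^ n) - ∑ r : Fin n, C (β r) * X ^ (q ^ (r : ℕ))

omit hp [CharP K p] in
lemma addPoly_aux (hq2 : 2 ≤ p ^ h) (β : Fin n → E0) :
    (∑ r : Fin n, C (β r) * X ^ ((p ^ h) ^ (r : ℕ)) : E0[X]).degree < ((p ^ h) ^ n : ℕ) := by
  refine lt_of_le_of_lt (degree_sum_le _ _) ?_
  rw [Finset.sup_lt_iff (by exact WithBot.bot_lt_coe _)]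
  intro r _
  refine lt_of_le_of_lt (degree_C_mul_X_pow_le _ _) ?_
  have : (p ^ h) ^ (r : ℕ) < (p ^ h) ^ n := Nat.pow_lt_pow_right (by omega) r.2
  exact_mod_cast this

omit hp [CharP K p] in
lemma addPoly_monic (hq2 : 2 ≤ p ^ h) (β : Fin n → E0) : (addPoly E0 (p ^ h) β).Monic :=
  monic_X_pow_sub (addPoly_aux p h E0 hq2 β)

omit hp [CharP K p] in
lemma addPoly_natDegree (hq2 : 2 ≤ p ^ h) (β : Fin n → E0) :
    (addPoly E0 (p ^ h) β).natDegree = (p ^ h) ^ n := by
  have h1 : (addPoly E0 (p ^ h) β).degree = ((p ^ h) ^ n : ℕ) := by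
    unfold addPoly
    rw [degree_sub_eq_left_of_degree_lt]
    · exact degree_X_pow _
    · rw [degree_X_pow]
      exact addPoly_aux p h E0 hq2 β
  exact natDegree_eq_of_degree_eq_some h1

include hq in
/-- The roots are the linear combinations. -/
lemma addPoly_prod [DecidableEq F] (hq2 : 2 ≤ p ^ h) (β : Fin n → E0) (v : Fin n → K)
    (hv : Function.Injective (ev (F := F) v))
    (hβ : ∀ i, v i ^ ((p ^ h) ^ n) = ∑ r : Fin n, (β r : K) * v i ^ ((p ^ h) ^ (r : ℕ))) :
    (addPoly E0 (p ^ h) β).map (algebraMap E0 K) =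
      ∏ α : Fin n → F, (X - C (ev v α)) := by
  have heval : ∀ α : Fin n → F, ((addPoly E0 (p ^ h) β).map (algebraMap E0 K)).eval (ev v α) = 0 := by
    intro α
    unfold addPoly
    simp only [Polynomial.map_sub, Polynomial.map_pow, map_X, Polynomial.map_sum,
      Polynomial.map_mul, map_C, eval_sub, eval_pow, eval_X, eval_finsetSum, eval_mul, eval_C]
    simp_rw [ev_pow p h hq]
    unfold ev
    simp_rw [Finset.mul_sum]
    rw [Finset.sum_comm, ← Finset.sum_sub_distrib]
    refine Finset.sum_eq_zero fun i _ => ?_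
    rw [hβ i, Finset.mul_sum, ← Finset.sum_sub_distrib]
    refine Finset.sum_eq_zero fun r _ => ?_
    change algebraMap F K (α i) * ((β r : K) * _) - (β r : K) * _ = 0
    ring
  have hm1 : ((addPoly E0 (p ^ h) β).map (algebraMap E0 K)).Monic :=
    (addPoly_monic p h E0 hq2 β).map _
  have hm2 : (∏ α : Fin n → F, (X - C (ev v α))).Monic :=
    monic_prod_of_monic _ _ fun u _ => monic_X_sub_C _
  have hd1 : ((addPoly E0 (p ^ h) β).map (algebraMap E0 K)).natDegree = (p ^ h) ^ n := by
    rw [natDegree_map, addPoly_natDegree p h E0 hq2 β]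
  have hd2 : (∏ α : Fin n → F, (X - C (ev v α))).natDegree = (p ^ h) ^ n := by
    rw [natDegree_prod_of_monic _ _ fun u _ => monic_X_sub_C _]
    simp only [natDegree_X_sub_C, Finset.sum_const, Finset.card_univ, smul_eq_mul, mul_one]
    rw [Fintype.card_fun, Fintype.card_fin, hq]
  rw [← sub_eq_zero]
  have hcard : Fintype.card (Fin n → F) = (p ^ h) ^ n := by
    rw [Fintype.card_fun, Fintype.card_fin, hq]
  by_contra hne
  have hlt : ((addPoly E0 (p ^ h) β).map (algebraMap E0 K) -
      ∏ α : Fin n → F, (X - C (ev v α))).degree <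
      ((addPoly E0 (p ^ h) β).map (algebraMap E0 K)).degree := by
    apply degree_sub_lt_left
    · rw [degree_eq_natDegree hm1.ne_zero, degree_eq_natDegree hm2.ne_zero, hd1, hd2]
    · exact hm1.ne_zero
    · rw [hm1.leadingCoeff, hm2.leadingCoeff]
  apply hne
  refine eq_zero_of_natDegree_lt_card_of_eval_eq_zero _ hv ?_ ?_
  · intro α
    rw [eval_sub, heval, zero_sub, neg_eq_zero, eval_prod]
    refine Finset.prod_eq_zero (Finset.mem_univ α) ?_
    rw [eval_sub, eval_X, eval_C, sub_self]
  · rw [hcard, ← hd1]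
    exact (natDegree_lt_natDegree_iff hne).mpr hlt

end Split

end Pool.Agent.H15Flag
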