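import Pool.Agent.Lib.Flag_H15.Gal

/-! # Membership in a normal chart ring -/

set_option autoImplicit false

open Polynomial

namespace Pool.Agent.H15Flag

section

variable {k K : Type} [Field k] [Field K] [Algebra k K]

lemma mem_of_frac_of_val (D : Subalgebra k K) [IsIntegrallyClosed D] {w : K}
    (hw : w ∈ Subfield.closure (D : Set K))
    (hval : ∀ V : ValuationSubring K, (∀ c ∈ D, c ∈ V) → w ∈ V) : w ∈ D := by
  have hcl : Subring.closure (D : Set K) ≤ D.toSubring := Subring.closure_le.mpr fun x hx => hx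
  have hint0 : IsIntegral (Subring.closure (D : Set K)) w := by
    have h1 : w ∈ (integralClosure (Subring.closure (D : Set K)) K).toSubring := by
      rw [← iInf_valuationSubring_superset, Subring.mem_iInf]
      rintro ⟨V, hV⟩
      exact hval V hV
    exact h1
  have hint : IsIntegral D w := by
    obtain ⟨P, hP, hP0⟩ := hint0
    refine ⟨P.map (Subring.inclusion hcl), hP.map _, ?_⟩
    rw [eval₂_map]
    exact hP0
  obtain ⟨y, hy, z, hz, hyz⟩ := Subfield.mem_closure_iff.mp hw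
  have hy' : y ∈ D := hcl hy
  have hz' : z ∈ D := hcl hz
  by_cases hz0 : z = 0
  · rw [← hyz, hz0, div_zero]; exact zero_mem D
  have hinj : Function.Injective (Algebra.ofId D K) := Subtype.val_injective
  let f : FractionRing D →ₐ[D] K := IsFractionRing.liftAlgHom (A := D) hinj
  have hf : ∀ d : D, f (algebraMap D (FractionRing D) d) = d := fun d => f.commutes d
  set w' : FractionRing D := algebraMap D _ ⟨y, hy'⟩ / algebraMap D _ ⟨z, hz'⟩ with hw'
  have hfw : f w' = w := by
    rw [hw', map_div₀, hf, hf, ← hyz]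
  have hint' : IsIntegral D w' := by
    rw [← isIntegral_algHom_iff f f.toRingHom.injective, hfw]
    exact hint
  obtain ⟨d, hd⟩ := IsIntegrallyClosed.isIntegral_iff.mp hint'
  rw [← hfw, ← hd, hf]
  exact d.2

lemma mem_of_root (V : ValuationSubring K) {q : ℕ} (hq : 2 ≤ q) {y c d : K} (hc : c ∈ V)
    (hd : d ∈ V) (h : y ^ q - c * y = d) : y ∈ V := by
  by_contra hy
  have hy' : y⁻¹ ∈ V := (V.mem_or_inv_mem y).resolve_left hy
  have hy0 : y ≠ 0 := by rintro rfl; exact hy (zero_mem V)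
  apply hy
  have h1 : y = c * (y⁻¹) ^ (q - 2) + d * (y⁻¹) ^ (q - 1) := by
    obtain ⟨m, rfl⟩ : ∃ m, q = m + 2 := ⟨q - 2, by omega⟩
    have e1 : m + 2 - 2 = m := by omega
    have e2 : m + 2 - 1 = m + 1 := by omega
    rw [e1, e2, ← h]
    have h2 : y ^ m * (y⁻¹) ^ m = 1 := by rw [← mul_pow, mul_inv_cancel₀ hy0, one_pow]
    have h3 : y * y⁻¹ = 1 := mul_inv_cancel₀ hy0
    have h4 : (y ^ (m + 2) - c * y) * y⁻¹ ^ (m + 1) =
        y * (y ^ m * (y⁻¹) ^ m) * (y * y⁻¹) - c * (y * y⁻¹) * y⁻¹ ^ m := by ring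
    rw [h4, h2, h3]
    ring
  rw [h1]
  exact add_mem (mul_mem hc (pow_mem hy' _)) (mul_mem hd (pow_mem hy' _))

lemma mem_of_pow_mem (V : ValuationSubring K) {e : ℕ} (he : 1 ≤ e) {y : K} (h : y ^ e ∈ V) :
    y ∈ V := by
  by_contra hy
  have hy' : y⁻¹ ∈ V := (V.mem_or_inv_mem y).resolve_left hy
  have hy0 : y ≠ 0 := by rintro rfl; exact hy (zero_mem V)
  apply hy
  have h1 : y = y ^ e * (y⁻¹) ^ (e - 1) := by
    obtain ⟨m, rfl⟩ : ∃ m, e = m + 1 := ⟨e - 1, by omega⟩
    have e2 : m + 1 - 1 = m := by omega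
    rw [e2, pow_succ]
    have h2 : y ^ m * (y⁻¹) ^ m = 1 := by rw [← mul_pow, mul_inv_cancel₀ hy0, one_pow]
    calc y = y * (y ^ m * (y⁻¹) ^ m) := by rw [h2, mul_one]
      _ = _ := by ring
  rw [h1]
  exact mul_mem h (pow_mem hy' _)

end

section Flag

variable {k K : Type} [Field k] [Field K] [Algebra k K] {L : Type} [DecidableEq L]
variable (p h : ℕ) [hp : Fact p.Prime] (M : ℕ → L → K) (s : ℕ → L) (e : ℕ → ℕ)

/-- The entries are integral over the chart ring. -/
lemma M_mem_of_dch (hh : 1 ≤ h) (n : ℕ) (he : ∀ i < n, 1 ≤ e i)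
    (hx : ∀ i < n, xx (p ^ h) M s i ≠ 0) (V : ValuationSubring K)
    (hV : ∀ c ∈ dch k (p ^ h) M s e n, c ∈ V) : ∀ i < n, ∀ l, M i l ∈ V := by
  have hq2 : 2 ≤ p ^ h := by
    calc 2 ≤ p := hp.out.two_le
      _ = p ^ 1 := (pow_one p).symm
      _ ≤ p ^ h := Nat.pow_le_pow_right hp.out.pos hh
  have hxx : ∀ i < n, xx (p ^ h) M s i ∈ V := by
    intro i hi
    exact mem_of_pow_mem V (he i hi) (hV _ (xx_pow_mem p h M s e hi dvd_rfl))
  have hph : ∀ i < n, ∀ l, ph (p ^ h) M s i l ∈ V :=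
    fun i hi l => hV _ (ph_mem p h M s e hi l)
  have hdesc : ∀ i, ∀ t' ≤ n, (∀ l, row (p ^ h) M s t' i l ∈ V) → ∀ l, M i l ∈ V := by
    intro i t'
    induction t' with
    | zero => intro _ h0; exact h0
    | succ t' ih =>
      intro ht' h0
      apply ih (by omega)
      have hpiv : row (p ^ h) M s t' i (s t') ∈ V := by
        have h1 := h0 (s t')
        apply mem_of_root V hq2 (pow_mem (hxx t' (by omega)) (p ^ h - 1)) h1
        rw [row_succ]
        simp only [red, if_true]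
      intro l
      by_cases hl : l = s t'
      · rw [hl]; exact hpiv
      · have h1 := h0 l
        rw [row_succ] at h1
        simp only [red, if_neg hl] at h1
        have h2 := add_mem h1 (mul_mem (hph t' (by omega) l) hpiv)
        simpa using h2
  intro i hi
  apply hdesc i i hi.le
  intro l
  rw [row_eq_ph_mul M s (p ^ h) (hx i hi)]
  exact mul_mem (hph i hi l) (hxx i hi)

end Flag

end Pool.Agent.H15Flag
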