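import Pool.Agent.Lib.Model_H15.Away

/-! # Row reduction by `q`-polynomials -/

set_option autoImplicit false

open Pool.Agent.H15Model

namespace Pool.Agent.H15Flag

section Red

variable {K : Type} [Field K] {L : Type} [DecidableEq L]

/-- The reduction of the row `y` by a row `x φ` with pivot `j`. -/
def red (q : ℕ) (x : K) (φ : L → K) (j : L) (y : L → K) : L → K :=
  fun l => if l = j then y j ^ q - x ^ (q - 1) * y j else y l - φ l * y j

variable (p h : ℕ) [hp : Fact p.Prime] [CharP K p]

lemma red_add (x : K) (φ : L → K) (j : L) (y z : L → K) :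
    red (p ^ h) x φ j (y + z) = red (p ^ h) x φ j y + red (p ^ h) x φ j z := by
  funext l
  simp only [red, Pi.add_apply]
  split_ifs with hl
  · rw [add_pow_char_pow]; ring
  · ring

omit hp [CharP K p] in
lemma red_smul (x : K) (φ : L → K) (j : L) (a : K) (ha : a ^ (p ^ h) = a) (y : L → K) :
    red (p ^ h) x φ j (a • y) = a • red (p ^ h) x φ j y := by
  funext l
  simp only [red, Pi.smul_apply, smul_eq_mul]
  split_ifs with hl
  · rw [mul_pow, ha]; ring
  · ring

omit [CharP K p] in
lemma red_zero (x : K) (φ : L → K) (j : L) : red (p ^ h) x φ j (0 : L → K) = 0 := by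
  funext l
  have hq : p ^ h ≠ 0 := (pow_pos hp.out.pos h).ne'
  simp only [red, Pi.zero_apply]
  split_ifs with hl
  · rw [zero_pow hq]; ring
  · ring

lemma red_sum {ι : Type} (s : Finset ι) (x : K) (φ : L → K) (j : L) (a : ι → K)
    (ha : ∀ i ∈ s, a i ^ (p ^ h) = a i) (y : ι → L → K) :
    red (p ^ h) x φ j (∑ i ∈ s, a i • y i) = ∑ i ∈ s, a i • red (p ^ h) x φ j (y i) := by
  classical
  induction s using Finset.induction with
  | empty => simp [red_zero]
  | insert i s hi ih =>
    rw [Finset.sum_insert hi, Finset.sum_insert hi, red_add, red_smul p h _ _ _ _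
      (ha i (Finset.mem_insert_self _ _)), ih (fun i' hi' => ha i' (Finset.mem_insert_of_mem hi'))]

omit [CharP K p] in
lemma red_pivot (j : L) (y : L → K) (hy : y j ≠ 0) :
    red (p ^ h) (y j) (fun l => y l / y j) j y = 0 := by
  funext l
  simp only [red, Pi.zero_apply]
  split_ifs with hl
  · have hq : p ^ h = (p ^ h - 1) + 1 := by
      have := pow_pos hp.out.pos h
      omega
    rw [← pow_succ, ← hq, sub_self]
  · rw [div_mul_cancel₀ _ hy, sub_self]

end Red

section Row

variable {K : Type} [Field K] {L : Type} [DecidableEq L]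

/-- The rows after `t` reductions, the pivots being `s 0, …, s (t-1)`. -/
noncomputable def row (q : ℕ) (M : ℕ → L → K) (s : ℕ → L) : ℕ → ℕ → L → K
  | 0 => M
  | t + 1 => fun i => red q (row q M s t t (s t))
      (fun l => row q M s t t l / row q M s t t (s t)) (s t) (row q M s t i)

/-- The pivot. -/
noncomputable def xx (q : ℕ) (M : ℕ → L → K) (s : ℕ → L) (t : ℕ) : K := row q M s t t (s t)

/-- The normalized pivot row. -/
noncomputable def ph (q : ℕ) (M : ℕ → L → K) (s : ℕ → L) (t : ℕ) (l : L) : K :=
  row q M s t t l / xx q M s t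

variable (q : ℕ) (M : ℕ → L → K) (s : ℕ → L)

lemma row_succ (t i : ℕ) : row q M s (t + 1) i =
    red q (xx q M s t) (ph q M s t) (s t) (row q M s t i) := rfl

lemma row_congr {s s' : ℕ → L} {t : ℕ} (h : ∀ i < t, s i = s' i) :
    row q M s t = row q M s' t := by
  induction t with
  | zero => rfl
  | succ t ih =>
    have h1 := ih (fun i hi => h i (by omega))
    have h2 := h t (by omega)
    funext i
    rw [row_succ, row_succ]
    unfold xx ph xx
    rw [h1, h2]

end Row

section Vanish

variable {K : Type} [Field K] {L : Type} [DecidableEq L]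
variable (p h : ℕ) [hp : Fact p.Prime] (M : ℕ → L → K) (s : ℕ → L)

lemma row_eq_zero {t : ℕ} (hx : ∀ i < t, xx (p ^ h) M s i ≠ 0) {i : ℕ} (hi : i < t) :
    row (p ^ h) M s t i = 0 := by
  induction t with
  | zero => omega
  | succ t ih =>
    rw [row_succ]
    rcases Nat.lt_succ_iff_lt_or_eq.mp hi with hi' | hi'
    · rw [ih (fun i' hi' => hx i' (by omega)) hi', red_zero]
    · rw [hi']
      exact red_pivot p h (s t) (row (p ^ h) M s t t) (hx t (by omega))

lemma row_eq_zero_of_zero {i : ℕ} (hM : M i = 0) (t : ℕ) : row (p ^ h) M s t i = 0 := by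
  induction t with
  | zero => exact hM
  | succ t ih => rw [row_succ, ih, red_zero]

end Vanish

end Pool.Agent.H15Flag
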