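import Pool.Agent.Lib.Flag_H15.Norm
import Pool.Agent.Lib.Model_H15.Tool

/-! # Resolution of the spectrum of a ring of vector invariants from charts -/

set_option autoImplicit false

open AlgebraicGeometry CategoryTheory Pool.Agent.H15Model

namespace Pool.Agent.H15Flag

lemma mem_of_isIntegral_of_le {A K : Type} [CommRing A] [Field K] [Algebra A K]
    (V : ValuationSubring K) (hV : ∀ a : A, algebraMap A K a ∈ V) {x : K}
    (hx : IsIntegral A x) : x ∈ V := by
  obtain ⟨P, hP, hP0⟩ := hx
  let f : A →+* V := (algebraMap A K).codRestrict V.toSubring hV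
  have h1 : IsIntegral V x := by
    refine ⟨P.map f, hP.map _, ?_⟩
    rw [Polynomial.eval₂_map]
    exact hP0
  obtain ⟨y, hy⟩ := IsIntegrallyClosed.isIntegral_iff.mp h1
  rw [← hy]
  exact y.2

theorem resolution_vecInv {k : Type} [Field k] {F : Type} [Field F] [Finite F] [Algebra F k]
    {n : ℕ} {L : Type} [Finite L] (H : Subgroup (GL (Fin n) F)) {ι : Type} [Finite ι] [Nonempty ι]
    (D : ι → Subalgebra k (FractionRing (MvPolynomial (Fin n × L) k)))
    (hA : ∀ i, ∀ a ∈ vecInv k L H,
      algebraMap (MvPolynomial (Fin n × L) k) (FractionRing (MvPolynomial (Fin n × L) k)) a ∈ D i)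
    (hglue : ∀ i j, IsAway (D i) (D i ⊔ D j))
    (hval : ∀ V : ValuationSubring (FractionRing (MvPolynomial (Fin n × L) k)),
      (∀ a : k, algebraMap k _ a ∈ V) → (∀ i < n, ∀ l, Mg k L n i l ∈ V) →
        ∃ i, ∀ c ∈ D i, c ∈ V)
    (hsm : ∀ i, Algebra.Smooth k (D i))
    (hfix : ∀ i, ∀ c ∈ D i, ∀ u ∈ H, sig u c = c) :
    Algebra.FiniteType k (vecInv k L H) ∧
    ∃ (Y : Scheme.{0}) (sY : Y ⟶ Spec (CommRingCat.of k))
      (f : Y ⟶ Spec (CommRingCat.of (vecInv k L H))),
      AlgebraicGeometry.IsIntegral Y ∧ AlgebraicGeometry.Smooth sY ∧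
      f ≫ Spec.map (CommRingCat.ofHom (algebraMap k (vecInv k L H))) = sY ∧
      AlgebraicGeometry.IsProper f ∧
      ∃ V : (Spec (CommRingCat.of (vecInv k L H))).Opens, V ≠ ⊥ ∧
        IsIso (AlgebraicGeometry.morphismRestrict f V) := by
  have hft : Algebra.FiniteType k (vecInv k L H) := vecInv_finiteType H
  refine ⟨hft, ?_⟩
  have hinj : Function.Injective (algebraMap (vecInv k L H)
      (FractionRing (MvPolynomial (Fin n × L) k))) := by
    intro a b hab
    apply Subtype.ext
    exact IsFractionRing.injective (MvPolynomial (Fin n × L) k)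
      (FractionRing (MvPolynomial (Fin n × L) k)) hab
  let mk : (E : Subalgebra k (FractionRing (MvPolynomial (Fin n × L) k))) →
      (∀ a ∈ vecInv k L H, algebraMap (MvPolynomial (Fin n × L) k)
        (FractionRing (MvPolynomial (Fin n × L) k)) a ∈ E) →
      Subalgebra (vecInv k L H) (FractionRing (MvPolynomial (Fin n × L) k)) := fun E hE =>
    { carrier := E
      mul_mem' := fun {a b} ha hb => mul_mem ha hb
      add_mem' := fun {a b} ha hb => add_mem ha hb
      algebraMap_mem' := fun r => hE r.1 r.2 }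
  have hmem : ∀ E hE z, z ∈ mk E hE ↔ z ∈ E := fun E hE z => Iff.rfl
  have g1 : ∀ i j, IsAway (mk (D i) (hA i)) (mk (D i) (hA i) ⊔ mk (D j) (hA j)) := by
    intro i j
    obtain ⟨u, hu⟩ := hglue i j
    have hE : ∀ a ∈ vecInv k L H, algebraMap (MvPolynomial (Fin n × L) k)
        (FractionRing (MvPolynomial (Fin n × L) k)) a ∈ D i ⊔ D j := fun a ha =>
      (le_sup_left : D i ≤ _) (hA i a ha)
    have hsup : mk (D i) (hA i) ⊔ mk (D j) (hA j) = mk (D i ⊔ D j) hE := by
      apply le_antisymm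
      · refine sup_le ?_ ?_
        · intro z hz
          exact (le_sup_left : D i ≤ D i ⊔ D j) hz
        · intro z hz
          exact (le_sup_right : D j ≤ D i ⊔ D j) hz
      · intro z hz
        have hle : D i ⊔ D j ≤
            (mk (D i) (hA i) ⊔ mk (D j) (hA j)).restrictScalars k := by
          refine sup_le ?_ ?_
          · intro z hz
            exact (le_sup_left : mk (D i) (hA i) ≤ mk (D i) (hA i) ⊔ mk (D j) (hA j)) hz
          · intro z hz
            exact (le_sup_right : mk (D j) (hA j) ≤ mk (D i) (hA i) ⊔ mk (D j) (hA j)) hz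
        exact hle hz
    refine ⟨u, ?_⟩
    rw [hsup]
    refine ⟨?_, hu.2.1, hu.2.2.1, hu.2.2.2.1, hu.2.2.2.2⟩
    intro z hz
    exact (le_sup_left : D i ≤ D i ⊔ D j) hz
  have g2 : ∀ V : ValuationSubring (FractionRing (MvPolynomial (Fin n × L) k)),
      (∀ a : vecInv k L H, algebraMap _ _ a ∈ V) → ∃ i, ∀ c ∈ mk (D i) (hA i), c ∈ V := by
    intro V hV
    have hV1 : ∀ a : k, algebraMap k (FractionRing (MvPolynomial (Fin n × L) k)) a ∈ V := by
      intro a
      have := hV (algebraMap k (vecInv k L H) a)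
      rw [← IsScalarTower.algebraMap_apply] at this
      exact this
    have hV2 : ∀ i < n, ∀ l, Mg k L n i l ∈ V := by
      intro i hi l
      rw [Mg, dif_pos hi]
      have h7 := isIntegral_of_orbit (k := k) (L := L) H
        (MvPolynomial.X ((⟨i, hi⟩ : Fin n), l))
      have h8 : IsIntegral (vecInv k L H) (algebraMap (MvPolynomial (Fin n × L) k)
          (FractionRing (MvPolynomial (Fin n × L) k))
          (MvPolynomial.X ((⟨i, hi⟩ : Fin n), l))) :=
        h7.map (IsScalarTower.toAlgHom (vecInv k L H) (MvPolynomial (Fin n × L) k)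
          (FractionRing (MvPolynomial (Fin n × L) k)))
      exact mem_of_isIntegral_of_le V hV h8
    obtain ⟨i, hi⟩ := hval V hV1 hV2
    exact ⟨i, hi⟩
  have g3 : ∀ i, Algebra.Smooth k (mk (D i) (hA i)) := fun i => hsm i
  have g4 : ∀ i, ∀ c ∈ mk (D i) (hA i), ∃ a b : vecInv k L H, b ≠ 0 ∧
      c * algebraMap _ _ b = algebraMap _ _ a := by
    intro i c hc
    obtain ⟨a, b, hb, hab⟩ := exists_frac H c (hfix i c hc)
    exact ⟨a, b, hb, hab⟩
  obtain ⟨Y, π, h1, h2, h3, U, hU, h4⟩ := resolution_of_model (k := k) (A := vecInv k L H)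
    (K := FractionRing (MvPolynomial (Fin n × L) k)) hinj (fun i => mk (D i) (hA i)) g1 g2 g3 g4
  refine ⟨Y, π ≫ Spec.map (CommRingCat.ofHom (algebraMap k (vecInv k L H))), π, h1, h3, rfl, h2,
      U, ?_, h4⟩
  rintro rfl
  have h5 : ((⊥ : (Spec (CommRingCat.of (vecInv k L H))).Opens) :
    Set (Spec (CommRingCat.of (vecInv k L H)))) = ∅ := rfl
  rw [h5] at hU
  have h6 : Nonempty (Spec (CommRingCat.of (vecInv k L H))) :=
    ⟨(⊥ : PrimeSpectrum (vecInv k L H))⟩
  exact Set.not_nonempty_empty hU.nonempty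

end Pool.Agent.H15Flag
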